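import Mathlib

/-!
# The signature of a real quadratic form and isotropic reduction
-/

namespace SG

open QuadraticMap Module

/-- The signature of a quadratic form on a finite dimensional real vector space. -/
noncomputable def sgn {V : Type*} [AddCommGroup V] [Module ℝ V] (Q : QuadraticForm ℝ V) : ℤ :=
  (sigPos Q : ℤ) - sigNeg Q

variable {V V' : Type*} [AddCommGroup V] [Module ℝ V] [AddCommGroup V'] [Module ℝ V']

/-- The product of two subspaces. -/
def prodE (P : Submodule ℝ V) (P' : Submodule ℝ V') : (P.prod P') ≃ₗ[ℝ] P × P' where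
  toFun x := (⟨x.1.1, x.2.1⟩, ⟨x.1.2, x.2.2⟩)
  invFun y := ⟨(y.1.1, y.2.1), ⟨y.1.2, y.2.2⟩⟩
  map_add' _ _ := rfl
  map_smul' _ _ := rfl
  left_inv _ := rfl
  right_inv _ := rfl

lemma pos_le [FiniteDimensional ℝ V] [FiniteDimensional ℝ V'] (Q : QuadraticForm ℝ V)
    (Q' : QuadraticForm ℝ V') (W : Submodule ℝ V) (f : W →ₗ[ℝ] V')
    (hq : ∀ w : W, Q' (f w) = Q w) :
    sigPos Q + finrank ℝ W ≤ sigPos Q' + finrank ℝ V := by
  obtain ⟨P, hP, hpos⟩ := exists_finrank_eq_sigPos_and_posDef Q
  let P1 : Submodule ℝ W := P.comap W.subtype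
  have h1 : finrank ℝ P1 = finrank ℝ (P ⊓ W : Submodule ℝ V) := by
    have : (P1.map W.subtype) = P ⊓ W := by
      rw [Submodule.map_comap_subtype, inf_comm]
    rw [← this]
    exact (LinearEquiv.finrank_eq (Submodule.equivSubtypeMap W P1))
  have h2 := Submodule.finrank_sup_add_finrank_inf_eq P W
  have h3 : finrank ℝ (P ⊔ W : Submodule ℝ V) ≤ finrank ℝ V := Submodule.finrank_le _
  have hinj : Function.Injective (f.domRestrict P1) := by
    rw [← LinearMap.ker_eq_bot, LinearMap.ker_eq_bot']
    intro x hx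
    by_contra hne
    have hx' : f x.1 = 0 := hx
    have h4 : Q' (f x.1) = Q (x.1 : V) := hq x.1
    rw [hx', map_zero] at h4
    have h5 := hpos ⟨(x.1 : V), x.2⟩ (fun h =>
      hne (Subtype.ext (Subtype.ext (congrArg (fun z : P => (z : V)) h))))
    simp only [restrict_apply] at h5
    linarith
  have h4 : finrank ℝ (LinearMap.range (f.domRestrict P1)) = finrank ℝ P1 :=
    LinearMap.finrank_range_of_inj hinj
  have h5 : (Q'.restrict (LinearMap.range (f.domRestrict P1))).PosDef := by
    rintro ⟨y, x, rfl⟩ hy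
    have hx : x ≠ 0 := by
      rintro rfl
      apply hy
      ext
      simp
    simp only [restrict_apply]
    have h6 : Q' (f x.1) = Q (x.1 : V) := hq x.1
    have h7 := hpos ⟨(x.1 : V), x.2⟩ (fun h =>
      hx (Subtype.ext (Subtype.ext (congrArg (fun z : P => (z : V)) h))))
    simp only [restrict_apply] at h7
    change 0 < Q' (f x.1)
    rw [h6]
    exact h7
  have h6 := le_sigPos_of_posDef Q' h5
  omega

/-- Isotropic reduction. -/
theorem red [FiniteDimensional ℝ V] [FiniteDimensional ℝ V'] (Q : QuadraticForm ℝ V)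
    (Q' : QuadraticForm ℝ V') (W : Submodule ℝ V) (f : W →ₗ[ℝ] V')
    (hs : Function.Surjective f) (hq : ∀ w : W, Q' (f w) = Q w)
    (hL : ∀ v : V, (∀ l : W, f l = 0 → polar Q v l = 0) → v ∈ W) : sgn Q = sgn Q' := by
  have a1 := pos_le Q Q' W f hq
  have a2 := pos_le (-Q) (-Q') W f (fun w => by simp [hq w])
  simp only [sigPos_neg] at a2
  have a3 := QuadraticForm.sigPos_add_sigNeg_add_radical (Q := Q)
  have a4 := QuadraticForm.sigPos_add_sigNeg_add_radical (Q := Q')
  have a5 := LinearMap.finrank_range_add_finrank_ker f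
  rw [LinearMap.range_eq_top.2 hs, finrank_top] at a5
  let L : Submodule ℝ V := (LinearMap.ker f).map W.subtype
  have hLk : finrank ℝ L = finrank ℝ (LinearMap.ker f) :=
    (LinearEquiv.finrank_eq (Submodule.equivSubtypeMap W (LinearMap.ker f))).symm
  have hmem : ∀ l : V, l ∈ L ↔ ∃ h : l ∈ W, f ⟨l, h⟩ = 0 := by
    intro l
    simp [L]
  have horth : LinearMap.BilinForm.orthogonal Q.polarBilin L = W := by
    ext v
    rw [LinearMap.BilinForm.mem_orthogonal_iff]
    constructor
    · intro h
      apply hL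
      intro l hl
      have : Q.polarBilin l.1 v = 0 := h l.1 ((hmem l.1).2 ⟨l.2, hl⟩)
      rw [polarBilin_apply_apply, polar_comm] at this
      exact this
    · intro hv l hl
      obtain ⟨h1, h2⟩ := (hmem l).1 hl
      change Q.polarBilin l v = 0
      rw [polarBilin_apply_apply, polar]
      have e1 := hq (⟨l, h1⟩ + ⟨v, hv⟩)
      have e2 := hq ⟨l, h1⟩
      have e3 := hq ⟨v, hv⟩
      rw [map_add, h2, zero_add] at e1
      rw [h2, map_zero] at e2
      simp only [Submodule.coe_add] at e1 e2 e3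
      rw [← e1, ← e2, ← e3]
      ring
  have a6 := LinearMap.BilinForm.finrank_add_finrank_orthogonal' (B := Q.polarBilin) L
  rw [horth] at a6
  have hker : ∀ v : V, v ∈ LinearMap.ker Q.polarBilin ↔ v ∈ Q.radical := by
    intro v
    rw [mem_radical_iff', LinearMap.mem_ker]
    constructor
    · intro h
      have h1 : ∀ n, polar Q v n = 0 := fun n => by
        rw [← polarBilin_apply_apply, h]; rfl
      have h2 : Q v = 0 := by
        have := h1 v
        rw [polar_self] at this
        simpa using this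
      refine ⟨h2, fun n => ?_⟩
      have := h1 n
      rw [polar, h2] at this
      linarith
    · rintro ⟨h1, h2⟩
      ext n
      rw [polarBilin_apply_apply, polar, h1, h2 n]
      simp
  have a7 : finrank ℝ Q.radical ≤ finrank ℝ Q'.radical +
      finrank ℝ (L ⊓ LinearMap.ker Q.polarBilin : Submodule ℝ V) := by
    have hRW : Q.radical ≤ W := by
      intro v hv
      apply hL
      intro l _
      have := (hker v).2 hv
      rw [LinearMap.mem_ker] at this
      rw [← polarBilin_apply_apply, this]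
      rfl
    let g : Q.radical →ₗ[ℝ] Q'.radical :=
      LinearMap.codRestrict Q'.radical (f ∘ₗ Submodule.inclusion hRW) (by
        intro v
        have hv := (mem_radical_iff'.1 v.2)
        rw [mem_radical_iff']
        have hfv : (f ∘ₗ Submodule.inclusion hRW) v = f ⟨v.1, hRW v.2⟩ := rfl
        rw [hfv]
        refine ⟨by rw [hq]; exact hv.1, fun n => ?_⟩
        obtain ⟨w, rfl⟩ := hs n
        rw [← map_add, hq, hq]
        exact hv.2 w)
    have b1 := LinearMap.finrank_range_add_finrank_ker g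
    have b2 : finrank ℝ (LinearMap.range g) ≤ finrank ℝ Q'.radical := Submodule.finrank_le _
    have b3 : finrank ℝ (LinearMap.ker g) ≤
        finrank ℝ (L ⊓ LinearMap.ker Q.polarBilin : Submodule ℝ V) := by
      let k : LinearMap.ker g →ₗ[ℝ] (L ⊓ LinearMap.ker Q.polarBilin : Submodule ℝ V) :=
        LinearMap.codRestrict _ (Q.radical.subtype ∘ₗ (LinearMap.ker g).subtype) (by
          intro v
          refine ⟨?_, ?_⟩
          · refine (hmem _).2 ⟨hRW v.1.2, ?_⟩
            have := v.2
            rw [LinearMap.mem_ker] at this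
            exact congrArg Subtype.val this
          · exact (hker _).2 v.1.2)
      apply LinearMap.finrank_le_finrank_of_injective (f := k)
      intro v w h
      have := congrArg Subtype.val h
      ext
      exact this
    omega
  rw [sgn, sgn]
  omega

/-- Isotropic reduction for subspaces of possibly infinite dimensional spaces. -/
theorem redC (Q : QuadraticForm ℝ V) (Q' : QuadraticForm ℝ V') (C : Submodule ℝ V)
    (C' : Submodule ℝ V') (hC : FiniteDimensional ℝ C) (hC' : FiniteDimensional ℝ C')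
    (W : Submodule ℝ V) (hW : W ≤ C) (f : V →ₗ[ℝ] V') (hf : ∀ w ∈ W, f w ∈ C')
    (hs : ∀ c ∈ C', ∃ w ∈ W, f w = c) (hq : ∀ w ∈ W, Q' (f w) = Q w)
    (hL : ∀ v ∈ C, (∀ l ∈ W, f l = 0 → polar Q v l = 0) → v ∈ W) :
    sgn (Q.restrict C) = sgn (Q'.restrict C') := by
  let W1 : Submodule ℝ C := W.comap C.subtype
  let g : W1 →ₗ[ℝ] C' := LinearMap.codRestrict C' (f ∘ₗ C.subtype ∘ₗ W1.subtype)
    (fun w => hf _ w.2)
  refine red _ _ W1 g ?_ ?_ ?_
  · rintro ⟨c, hc⟩
    obtain ⟨w, hw, rfl⟩ := hs c hc
    exact ⟨⟨⟨w, hW hw⟩, hw⟩, rfl⟩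
  · intro w
    exact hq _ w.2
  · intro v h
    refine hL v.1 v.2 (fun l hl h0 => ?_)
    have := h ⟨⟨l, hW hl⟩, hl⟩ (Subtype.ext h0)
    simpa [polar] using this

/-- A special case: a surjective isometry. -/
theorem redI (Q : QuadraticForm ℝ V) (Q' : QuadraticForm ℝ V') (C : Submodule ℝ V)
    (C' : Submodule ℝ V') (hC : FiniteDimensional ℝ C) (hC' : FiniteDimensional ℝ C')
    (f : V →ₗ[ℝ] V') (hf : ∀ w ∈ C, f w ∈ C')
    (hs : ∀ c ∈ C', ∃ w ∈ C, f w = c) (hq : ∀ w ∈ C, Q' (f w) = Q w) :
    sgn (Q.restrict C) = sgn (Q'.restrict C') :=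
  redC Q Q' C C' hC hC' C le_rfl f hf hs hq (fun _ hv _ => hv)

/-- The signature of an orthogonal sum. -/
theorem sgn_prod [FiniteDimensional ℝ V] [FiniteDimensional ℝ V'] (Q : QuadraticForm ℝ V)
    (Q' : QuadraticForm ℝ V') : sgn (QuadraticMap.prod Q Q') = sgn Q + sgn Q' := by
  have key : ∀ (Q : QuadraticForm ℝ V) (Q' : QuadraticForm ℝ V'),
      sigPos Q + sigPos Q' ≤ sigPos (QuadraticMap.prod Q Q') := by
    intro Q Q'
    obtain ⟨P, hP, hpos⟩ := exists_finrank_eq_sigPos_and_posDef Q
    obtain ⟨P', hP', hpos'⟩ := exists_finrank_eq_sigPos_and_posDef Q'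
    have h1 : finrank ℝ (P.prod P') = finrank ℝ P + finrank ℝ P' := by
      rw [LinearEquiv.finrank_eq (prodE P P'), finrank_prod]
    rw [← hP, ← hP', ← h1]
    apply le_sigPos_of_posDef
    rintro ⟨⟨x, y⟩, hx, hy⟩ hne
    simp only [restrict_apply, prod_apply]
    have hx' : x ∈ P := hx
    have hy' : y ∈ P' := hy
    by_cases h0 : x = 0
    · have hy0 : y ≠ 0 := by
        rintro rfl
        apply hne
        subst h0
        rfl
      have := hpos' ⟨y, hy'⟩ (by simpa using hy0)
      simp only [restrict_apply] at this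
      rw [h0, map_zero, zero_add]
      exact this
    · have a := hpos ⟨x, hx'⟩ (by simpa using h0)
      simp only [restrict_apply] at a
      by_cases h1 : y = 0
      · rw [h1, map_zero, add_zero]
        exact a
      · have b := hpos' ⟨y, hy'⟩ (by simpa using h1)
        simp only [restrict_apply] at b
        exact add_pos a b
  have h1 := key Q Q'
  have h2 := key (-Q) (-Q')
  have h3 : QuadraticMap.prod (-Q) (-Q') = -(QuadraticMap.prod Q Q') := by
    ext ⟨x, y⟩
    simp only [prod_apply, neg_apply]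
    ring
  rw [h3] at h2
  simp only [sigPos_neg] at h2
  have a3 := QuadraticForm.sigPos_add_sigNeg_add_radical (Q := Q)
  have a4 := QuadraticForm.sigPos_add_sigNeg_add_radical (Q := Q')
  have a5 := QuadraticForm.sigPos_add_sigNeg_add_radical (Q := QuadraticMap.prod Q Q')
  rw [finrank_prod] at a5
  have a6 : finrank ℝ Q.radical + finrank ℝ Q'.radical ≤
      finrank ℝ (QuadraticMap.prod Q Q').radical := by
    have h1 : finrank ℝ (Q.radical.prod Q'.radical) = finrank ℝ Q.radical + finrank ℝ Q'.radical := by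
      rw [LinearEquiv.finrank_eq (prodE _ _), finrank_prod]
    rw [← h1]
    apply Submodule.finrank_mono
    rintro ⟨x, y⟩ ⟨hx, hy⟩
    have hx' := mem_radical_iff'.1 (show x ∈ Q.radical from hx)
    have hy' := mem_radical_iff'.1 (show y ∈ Q'.radical from hy)
    rw [mem_radical_iff']
    refine ⟨by simp [hx'.1, hy'.1], ?_⟩
    rintro ⟨a, b⟩
    simp [hx'.2 a, hy'.2 b]
  rw [sgn, sgn, sgn]
  omega

end SG
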