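import Pool.Agent.H75.ZM.BrDefs
import Pool.Agent.H70.SG.A

/-!
# Quadratic relations attached to virtual braid words
-/

namespace SG

open QuadraticMap Module ZM

/-- Labels of the strands at one level. -/
abbrev E : Type := ℕ → ℝ

/-- Labels supported on the first `N` positions. -/
def supp (N : ℕ) : Submodule ℝ E where
  carrier := {x | ∀ j, N ≤ j → x j = 0}
  zero_mem' := fun _ _ => rfl
  add_mem' := by
    intro a b ha hb j hj
    simp [ha j hj, hb j hj]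
  smul_mem' := by
    intro c a ha j hj
    simp [ha j hj]

lemma mem_supp {N : ℕ} {x : E} : x ∈ supp N ↔ ∀ j, N ≤ j → x j = 0 := Iff.rfl

instance fdSupp (N : ℕ) : FiniteDimensional ℝ (supp N) := by
  let f : supp N →ₗ[ℝ] (Fin N → ℝ) :=
    { toFun := fun x j => x.1 j
      map_add' := fun _ _ => rfl
      map_smul' := fun _ _ => rfl }
  refine FiniteDimensional.of_injective f ?_
  intro x y h
  ext j
  by_cases hj : j < N
  · exact congrFun h ⟨j, hj⟩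
  · rw [x.2 j (not_lt.1 hj), y.2 j (not_lt.1 hj)]

/-- A quadratic relation between labels. -/
structure QR (N : ℕ) where
  V : Type
  [g : AddCommGroup V]
  [md : Module ℝ V]
  C : Submodule ℝ V
  fd : FiniteDimensional ℝ C
  i : V →ₗ[ℝ] E
  o : V →ₗ[ℝ] E
  hi : ∀ v ∈ C, i v ∈ supp N
  ho : ∀ v ∈ C, o v ∈ supp N
  q : QuadraticForm ℝ V

attribute [instance] QR.g QR.md

variable {N : ℕ}

/-- Closed elements. -/
def cl (R : QR N) : Submodule ℝ R.V := R.C ⊓ LinearMap.eqLocus R.o R.i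

lemma mem_cl {R : QR N} {v : R.V} : v ∈ cl R ↔ v ∈ R.C ∧ R.o v = R.i v := Iff.rfl

lemma fdcl (R : QR N) : FiniteDimensional ℝ (cl R) :=
  haveI := R.fd
  Submodule.finiteDimensional_of_le (inf_le_left : cl R ≤ R.C)

/-- The signature of the closure. -/
noncomputable def sg (R : QR N) : ℤ := sgn (R.q.restrict (cl R))

lemma fdProd {V V' : Type*} [AddCommGroup V] [Module ℝ V] [AddCommGroup V'] [Module ℝ V']
    (P : Submodule ℝ V) (P' : Submodule ℝ V') (h : FiniteDimensional ℝ P)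
    (h' : FiniteDimensional ℝ P') : FiniteDimensional ℝ (P.prod P') :=
  LinearEquiv.finiteDimensional (prodE P P').symm

/-- Composition of quadratic relations. -/
@[reducible] noncomputable def comp (R S : QR N) : QR N where
  V := R.V × S.V
  C := R.C.prod S.C ⊓ LinearMap.eqLocus (R.o ∘ₗ LinearMap.fst ℝ R.V S.V)
    (S.i ∘ₗ LinearMap.snd ℝ R.V S.V)
  fd := haveI := fdProd R.C S.C R.fd S.fd
    Submodule.finiteDimensional_of_le (inf_le_left : _ ≤ R.C.prod S.C)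
  i := R.i ∘ₗ LinearMap.fst ℝ R.V S.V
  o := S.o ∘ₗ LinearMap.snd ℝ R.V S.V
  hi := fun _ hv => R.hi _ hv.1.1
  ho := fun _ hv => S.ho _ hv.1.2
  q := QuadraticMap.prod R.q S.q

lemma mem_comp {R S : QR N} {v : R.V × S.V} :
    v ∈ (comp R S).C ↔ v.1 ∈ R.C ∧ v.2 ∈ S.C ∧ R.o v.1 = S.i v.2 := by
  constructor
  · rintro ⟨⟨h1, h2⟩, h3⟩
    exact ⟨h1, h2, h3⟩
  · rintro ⟨h1, h2, h3⟩
    exact ⟨⟨h1, h2⟩, h3⟩

lemma comp_i {R S : QR N} (v : R.V × S.V) : (comp R S).i v = R.i v.1 := rfl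
lemma comp_o {R S : QR N} (v : R.V × S.V) : (comp R S).o v = S.o v.2 := rfl
lemma comp_q {R S : QR N} (v : R.V × S.V) : (comp R S).q v = R.q v.1 + S.q v.2 := rfl

/-- The identity relation. -/
@[reducible] noncomputable def one (N : ℕ) : QR N where
  V := E
  C := supp N
  fd := fdSupp N
  i := LinearMap.id
  o := LinearMap.id
  hi := fun _ h => h
  ho := fun _ h => h
  q := 0

/-- Exchange of two adjacent positions. -/
def sw (i j : ℕ) : ℕ := if j = i then i + 1 else if j = i + 1 then i else j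

/-- The linear relation at a letter. -/
def on : BL → E → E → Prop
  | .sg _ _, _, _ => True
  | .ta i, x, y => y i = x (i + 1) ∧ y (i + 1) = x i

/-- The linear relation at a letter. -/
def rel (a : BL) (x y : E) : Prop := (∀ j, j ≠ a.ix → j ≠ a.ix + 1 → y j = x j) ∧ on a x y

/-- The contribution of a letter to the quadratic form. -/
def qv : BL → ℝ → ℝ → ℝ → ℝ → ℝ
  | .sg _ s, x, y, X, Y => -(if s then 1 else -1) * ((X - x) ^ 2 + (Y - y) ^ 2) + 2 * (X * Y - x * y)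
  | .ta _, _, _, _, _ => 0

/-- Coordinates on `E × E`. -/
def cx (j : ℕ) : E × E →ₗ[ℝ] ℝ := LinearMap.proj j ∘ₗ LinearMap.fst ℝ E E
/-- Coordinates on `E × E`. -/
def cy (j : ℕ) : E × E →ₗ[ℝ] ℝ := LinearMap.proj j ∘ₗ LinearMap.snd ℝ E E

/-- The quadratic form of a letter. -/
noncomputable def qf : BL → QuadraticForm ℝ (E × E)
  | .sg i s => (-(if s then 1 else -1 : ℝ)) • (linMulLin (cy i - cx i) (cy i - cx i) +
      linMulLin (cy (i + 1) - cx (i + 1)) (cy (i + 1) - cx (i + 1))) +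
      (2 : ℝ) • (linMulLin (cy i) (cy (i + 1)) - linMulLin (cx i) (cx (i + 1)))
  | .ta _ => 0

lemma qf_apply (a : BL) (p : E × E) :
    qf a p = qv a (p.1 a.ix) (p.1 (a.ix + 1)) (p.2 a.ix) (p.2 (a.ix + 1)) := by
  cases a with
  | sg i s =>
    simp only [qf, qv, BL.ix, add_apply, smul_apply, sub_apply, linMulLin_apply,
      LinearMap.sub_apply, cx, cy, LinearMap.comp_apply, LinearMap.proj_apply,
      LinearMap.fst_apply, LinearMap.snd_apply, smul_eq_mul]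
    ring
  | ta i => simp [qf, qv]

/-- The constraint of a letter. -/
def lC (N : ℕ) (a : BL) : Submodule ℝ (E × E) where
  carrier := {p | p.1 ∈ supp N ∧ p.2 ∈ supp N ∧ rel a p.1 p.2}
  zero_mem' := by
    refine ⟨Submodule.zero_mem _, Submodule.zero_mem _, fun _ _ _ => rfl, ?_⟩
    cases a <;> simp [on]
  add_mem' := by
    rintro p r ⟨h1, h2, h3, h4⟩ ⟨k1, k2, k3, k4⟩
    refine ⟨Submodule.add_mem _ h1 k1, Submodule.add_mem _ h2 k2, ?_, ?_⟩
    · intro j hj hj'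
      simp [h3 j hj hj', k3 j hj hj']
    · cases a with
      | sg i s => trivial
      | ta i => exact ⟨by simp [h4.1, k4.1], by simp [h4.2, k4.2]⟩
  smul_mem' := by
    rintro c p ⟨h1, h2, h3, h4⟩
    refine ⟨Submodule.smul_mem _ _ h1, Submodule.smul_mem _ _ h2, ?_, ?_⟩
    · intro j hj hj'
      simp [h3 j hj hj']
    · cases a with
      | sg i s => trivial
      | ta i => exact ⟨by simp [h4.1], by simp [h4.2]⟩

/-- The quadratic relation of a letter. -/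
@[reducible] noncomputable def lt (N : ℕ) (a : BL) : QR N where
  V := E × E
  C := lC N a
  fd := haveI := fdProd (supp N) (supp N) (fdSupp N) (fdSupp N)
    Submodule.finiteDimensional_of_le
      (show lC N a ≤ (supp N).prod (supp N) from fun _ h => ⟨h.1, h.2.1⟩)
  i := LinearMap.fst ℝ E E
  o := LinearMap.snd ℝ E E
  hi := fun _ h => h.1
  ho := fun _ h => h.2.1
  q := qf a

lemma mem_lt {a : BL} {p : E × E} :
    p ∈ (lt N a).C ↔ p.1 ∈ supp N ∧ p.2 ∈ supp N ∧ rel a p.1 p.2 := Iff.rfl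

lemma lt_q (a : BL) (p : E × E) :
    (lt N a).q p = qv a (p.1 a.ix) (p.1 (a.ix + 1)) (p.2 a.ix) (p.2 (a.ix + 1)) := qf_apply a p

lemma lt_i (a : BL) (p : E × E) : (lt N a).i p = p.1 := rfl
lemma lt_o (a : BL) (p : E × E) : (lt N a).o p = p.2 := rfl

/-- The quadratic relation of a word. -/
noncomputable def QW (N : ℕ) : List BL → QR N
  | [] => one N
  | a :: w => comp (lt N a) (QW N w)

/-- Surjective isometric morphisms of quadratic relations. -/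
def Ep (R S : QR N) : Prop := ∃ f : R.V →ₗ[ℝ] S.V, (∀ v ∈ R.C, f v ∈ S.C) ∧
  (∀ s ∈ S.C, ∃ v ∈ R.C, f v = s) ∧ (∀ v ∈ R.C, S.i (f v) = R.i v) ∧
  (∀ v ∈ R.C, S.o (f v) = R.o v) ∧ (∀ v ∈ R.C, S.q (f v) = R.q v)

lemma Ep.refl (R : QR N) : Ep R R :=
  ⟨LinearMap.id, fun _ h => h, fun s h => ⟨s, h, rfl⟩, fun _ _ => rfl, fun _ _ => rfl,
    fun _ _ => rfl⟩

lemma Ep.trans {R S T : QR N} (h : Ep R S) (k : Ep S T) : Ep R T := by
  obtain ⟨f, f1, f2, f3, f4, f5⟩ := h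
  obtain ⟨g, g1, g2, g3, g4, g5⟩ := k
  refine ⟨g ∘ₗ f, fun v hv => g1 _ (f1 v hv), ?_, ?_, ?_, ?_⟩
  · intro t ht
    obtain ⟨s, hs, rfl⟩ := g2 t ht
    obtain ⟨v, hv, rfl⟩ := f2 s hs
    exact ⟨v, hv, rfl⟩
  · intro v hv
    rw [LinearMap.comp_apply, g3 _ (f1 v hv), f3 v hv]
  · intro v hv
    rw [LinearMap.comp_apply, g4 _ (f1 v hv), f4 v hv]
  · intro v hv
    rw [LinearMap.comp_apply, g5 _ (f1 v hv), f5 v hv]

lemma Ep.compL {R S : QR N} (T : QR N) (h : Ep R S) : Ep (comp T R) (comp T S) := by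
  obtain ⟨f, f1, f2, f3, f4, f5⟩ := h
  refine ⟨LinearMap.prodMap LinearMap.id f, ?_, ?_, ?_, ?_, ?_⟩
  · intro v hv
    obtain ⟨h1, h2, h3⟩ := mem_comp.1 hv
    exact mem_comp.2 ⟨h1, f1 _ h2, h3.trans (f3 _ h2).symm⟩
  · intro s hs
    obtain ⟨h1, h2, h3⟩ := mem_comp.1 hs
    obtain ⟨v, hv, hv'⟩ := f2 _ h2
    refine ⟨(s.1, v), mem_comp.2 ⟨h1, hv, ?_⟩, Prod.ext rfl hv'⟩
    rw [h3, ← hv', f3 v hv]
  · intro v hv
    rfl
  · intro v hv
    exact f4 _ (mem_comp.1 hv).2.1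
  · intro v hv
    rw [comp_q, comp_q]
    exact congrArg _ (f5 _ (mem_comp.1 hv).2.1)

lemma Ep.compR {R S : QR N} (T : QR N) (h : Ep R S) : Ep (comp R T) (comp S T) := by
  obtain ⟨f, f1, f2, f3, f4, f5⟩ := h
  refine ⟨LinearMap.prodMap f LinearMap.id, ?_, ?_, ?_, ?_, ?_⟩
  · intro v hv
    obtain ⟨h1, h2, h3⟩ := mem_comp.1 hv
    exact mem_comp.2 ⟨f1 _ h1, h2, (f4 _ h1).trans h3⟩
  · intro s hs
    obtain ⟨h1, h2, h3⟩ := mem_comp.1 hs
    obtain ⟨v, hv, hv'⟩ := f2 _ h1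
    refine ⟨(v, s.2), mem_comp.2 ⟨hv, h2, ?_⟩, Prod.ext hv' rfl⟩
    rw [← h3, ← hv', f4 v hv]
  · intro v hv
    exact f3 _ (mem_comp.1 hv).1
  · intro v hv
    rfl
  · intro v hv
    rw [comp_q, comp_q]
    exact congrArg (· + _) (f5 _ (mem_comp.1 hv).1)

lemma Ep.assoc (R S T : QR N) : Ep (comp (comp R S) T) (comp R (comp S T)) := by
  refine ⟨(LinearMap.fst ℝ R.V S.V ∘ₗ LinearMap.fst ℝ (R.V × S.V) T.V).prod
    ((LinearMap.snd ℝ R.V S.V ∘ₗ LinearMap.fst ℝ (R.V × S.V) T.V).prod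
      (LinearMap.snd ℝ (R.V × S.V) T.V)), ?_, ?_, ?_, ?_, ?_⟩
  · intro v hv
    obtain ⟨h1, h2, h3⟩ := mem_comp.1 hv
    obtain ⟨k1, k2, k3⟩ := mem_comp.1 h1
    exact mem_comp.2 ⟨k1, mem_comp.2 ⟨k2, h2, h3⟩, k3⟩
  · rintro ⟨a, b, c⟩ hs
    obtain ⟨h1, h2, h3⟩ := mem_comp.1 hs
    obtain ⟨k1, k2, k3⟩ := mem_comp.1 h2
    exact ⟨((a, b), c), mem_comp.2 ⟨mem_comp.2 ⟨h1, k1, h3⟩, k2, k3⟩, rfl⟩
  · intro v _
    rfl
  · intro v _
    rfl
  · intro v _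
    change R.q v.1.1 + (S.q v.1.2 + T.q v.2) = (R.q v.1.1 + S.q v.1.2) + T.q v.2
    ring

lemma Ep.one (R : QR N) : Ep (comp (one N) R) R := by
  refine ⟨LinearMap.snd ℝ E R.V, ?_, ?_, ?_, ?_, ?_⟩
  · intro v hv
    exact (mem_comp.1 hv).2.1
  · intro s hs
    exact ⟨(R.i s, s), mem_comp.2 ⟨R.hi s hs, hs, rfl⟩, rfl⟩
  · intro v hv
    exact (mem_comp.1 hv).2.2.symm
  · intro v hv
    rfl
  · intro v hv
    change R.q v.2 = 0 + R.q v.2
    ring

lemma Ep.sg {R S : QR N} (h : Ep R S) : sg R = sg S := by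
  obtain ⟨f, f1, f2, f3, f4, f5⟩ := h
  refine redI R.q S.q (cl R) (cl S) (fdcl R) (fdcl S) f ?_ ?_ (fun v hv => f5 v hv.1)
  · rintro v ⟨h1, h2⟩
    exact mem_cl.2 ⟨f1 v h1, by rw [f3 v h1, f4 v h1]; exact h2⟩
  · rintro s ⟨h1, h2⟩
    obtain ⟨v, hv, rfl⟩ := f2 s h1
    exact ⟨v, mem_cl.2 ⟨hv, by rw [← f3 v hv, ← f4 v hv]; exact h2⟩, rfl⟩

lemma sg_cyc (R S : QR N) : sg (comp R S) = sg (comp S R) := by
  refine redI _ _ _ _ (fdcl _) (fdcl _) ((LinearMap.snd ℝ R.V S.V).prod (LinearMap.fst ℝ R.V S.V))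
    ?_ ?_ ?_
  · rintro v ⟨h1, h2⟩
    obtain ⟨k1, k2, k3⟩ := mem_comp.1 h1
    exact mem_cl.2 ⟨mem_comp.2 ⟨k2, k1, h2⟩, k3⟩
  · rintro ⟨a, b⟩ ⟨h1, h2⟩
    obtain ⟨k1, k2, k3⟩ := mem_comp.1 h1
    exact ⟨(b, a), mem_cl.2 ⟨mem_comp.2 ⟨k2, k1, h2⟩, k3⟩, rfl⟩
  · rintro ⟨a, b⟩ _
    change S.q b + R.q a = R.q a + S.q b
    ring

lemma Ep.app (u v : List BL) : Ep (comp (QW N u) (QW N v)) (QW N (u ++ v)) := by
  induction u with
  | nil => exact Ep.one _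
  | cons a u ih => exact (Ep.assoc _ _ _).trans (Ep.compL _ ih)

/-- Invariance under conjugation. -/
theorem sg_conj (u v : List BL) : sg (QW N (u ++ v)) = sg (QW N (v ++ u)) := by
  rw [← (Ep.app u v).sg, ← (Ep.app v u).sg, sg_cyc]

/-- Local relations in context. -/
theorem sg_loc (u x y v : List BL) (h : ∀ K : List BL, sg (QW N (x ++ K)) = sg (QW N (y ++ K))) :
    sg (QW N (u ++ x ++ v)) = sg (QW N (u ++ y ++ v)) := by
  rw [List.append_assoc, List.append_assoc, sg_conj u, sg_conj u, List.append_assoc,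
    List.append_assoc, h]

end SG
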