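import Pool.Agent.H70.SG.B

/-!
# Local moves
-/

namespace SG

open QuadraticMap Module ZM

variable {N : ℕ}

/-- Exchange of two adjacent coordinates. -/
def swL (i : ℕ) : E →ₗ[ℝ] E := LinearMap.funLeft ℝ ℝ (sw i)

lemma swL_apply (i j : ℕ) (x : E) : swL i x j = x (sw i j) := rfl

lemma sw_l (i : ℕ) : sw i i = i + 1 := by simp [sw]
lemma sw_r (i : ℕ) : sw i (i + 1) = i := by simp [sw]
lemma sw_o {i j : ℕ} (h : j ≠ i) (h' : j ≠ i + 1) : sw i j = j := by simp [sw, h, h']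

lemma sw_sw (i j : ℕ) : sw i (sw i j) = j := by
  by_cases h : j = i
  · subst h; rw [sw_l, sw_r]
  · by_cases h' : j = i + 1
    · subst h'; rw [sw_r, sw_l]
    · rw [sw_o h h', sw_o h h']

lemma swL_swL (i : ℕ) (x : E) : swL i (swL i x) = x := by
  funext j
  rw [swL_apply, swL_apply, sw_sw]

lemma swL_supp {i : ℕ} (hi : i + 1 < N) {x : E} (hx : x ∈ supp N) : swL i x ∈ supp N := by
  intro j hj
  rw [swL_apply, sw_o (by omega) (by omega)]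
  exact hx j hj

lemma rel_ta {i : ℕ} {x y : E} : rel (.ta i) x y ↔ y = swL i x := by
  constructor
  · rintro ⟨h1, h2, h3⟩
    funext j
    rw [swL_apply]
    by_cases h : j = i
    · subst h; rw [sw_l, h2]
    · by_cases h' : j = i + 1
      · subst h'; rw [sw_r, h3]
      · rw [sw_o h h']; exact h1 j h h'
  · rintro rfl
    refine ⟨fun j h h' => ?_, ?_, ?_⟩
    · exact congrArg x (sw_o (i := i) h h')
    · rw [swL_apply, sw_l]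
    · rw [swL_apply, sw_r]

lemma rel_sg {i : ℕ} {s : Bool} {x y : E} :
    rel (.sg i s) x y ↔ ∀ j, j ≠ i → j ≠ i + 1 → y j = x j :=
  ⟨fun h => h.1, fun h => ⟨h, trivial⟩⟩

lemma mem1 {a : BL} {K : QR N} {v : (E × E) × K.V} :
    v ∈ (comp (lt N a) K).C ↔ (v.1.1 ∈ supp N ∧ v.1.2 ∈ supp N ∧ rel a v.1.1 v.1.2) ∧
      v.2 ∈ K.C ∧ v.1.2 = K.i v.2 := mem_comp

lemma mem2 {a b : BL} {K : QR N} {v : (E × E) × ((E × E) × K.V)} :
    v ∈ (comp (lt N a) (comp (lt N b) K)).C ↔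
      (v.1.1 ∈ supp N ∧ v.1.2 ∈ supp N ∧ rel a v.1.1 v.1.2) ∧
      (v.2.1.1 ∈ supp N ∧ v.2.1.2 ∈ supp N ∧ rel b v.2.1.1 v.2.1.2) ∧
      v.2.2 ∈ K.C ∧ v.1.2 = v.2.1.1 ∧ v.2.1.2 = K.i v.2.2 := by
  rw [mem1, mem1]
  constructor
  · rintro ⟨h1, ⟨h2, h3, h4⟩, h5⟩
    exact ⟨h1, h2, h3, h5, h4⟩
  · rintro ⟨h1, h2, h3, h5, h4⟩
    exact ⟨h1, ⟨h2, h3, h4⟩, h5⟩

lemma mem3 {a b c : BL} {K : QR N} {v : (E × E) × ((E × E) × ((E × E) × K.V))} :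
    v ∈ (comp (lt N a) (comp (lt N b) (comp (lt N c) K))).C ↔
      (v.1.1 ∈ supp N ∧ v.1.2 ∈ supp N ∧ rel a v.1.1 v.1.2) ∧
      (v.2.1.1 ∈ supp N ∧ v.2.1.2 ∈ supp N ∧ rel b v.2.1.1 v.2.1.2) ∧
      (v.2.2.1.1 ∈ supp N ∧ v.2.2.1.2 ∈ supp N ∧ rel c v.2.2.1.1 v.2.2.1.2) ∧
      v.2.2.2 ∈ K.C ∧ v.1.2 = v.2.1.1 ∧ v.2.1.2 = v.2.2.1.1 ∧ v.2.2.1.2 = K.i v.2.2.2 := by
  rw [mem1, mem2]
  constructor
  · rintro ⟨h1, ⟨h2, h3, h4, h5, h6⟩, h7⟩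
    exact ⟨h1, h2, h3, h4, h7, h5, h6⟩
  · rintro ⟨h1, h2, h3, h4, h7, h5, h6⟩
    exact ⟨h1, ⟨h2, h3, h4, h5, h6⟩, h7⟩

lemma q1 (a : BL) (K : QR N) (v : (E × E) × K.V) : (comp (lt N a) K).q v =
    qv a (v.1.1 a.ix) (v.1.1 (a.ix + 1)) (v.1.2 a.ix) (v.1.2 (a.ix + 1)) + K.q v.2 := by
  rw [comp_q, lt_q]

/-- `τ τ = 1`. -/
lemma ep_tt (i : ℕ) (hi : i + 1 < N) (K : QR N) :
    Ep (comp (lt N (.ta i)) (comp (lt N (.ta i)) K)) K := by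
  refine ⟨LinearMap.snd ℝ (E × E) K.V ∘ₗ LinearMap.snd ℝ (E × E) ((E × E) × K.V),
    ?_, ?_, ?_, ?_, ?_⟩
  · intro v hv
    exact (mem2.1 hv).2.2.1
  · intro k hk
    refine ⟨((K.i k, swL i (K.i k)), ((swL i (K.i k), K.i k), k)), mem2.2 ?_, rfl⟩
    have := K.hi k hk
    exact ⟨⟨this, swL_supp hi this, rel_ta.2 rfl⟩,
      ⟨swL_supp hi this, this, rel_ta.2 (swL_swL i _).symm⟩, hk, rfl, rfl⟩
  · rintro ⟨⟨x, y⟩, ⟨⟨y', z⟩, k⟩⟩ hv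
    obtain ⟨⟨_, _, h1⟩, ⟨_, _, h2⟩, h3, h4, h5⟩ := mem2.1 hv
    dsimp only at h1 h2 h3 h4 h5
    rw [rel_ta] at h1 h2
    change K.i k = x
    rw [← h5, h2, ← h4, h1, swL_swL]
  · intro v _
    rfl
  · intro v _
    rw [q1, q1]
    simp only [qv, zero_add]
    rfl

/-- The middle label after a far commutation. -/
def pick (i : ℕ) : E × E →ₗ[ℝ] E where
  toFun p := fun j => if j = i ∨ j = i + 1 then p.2 j else p.1 j
  map_add' := by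
    intro p q
    funext j
    by_cases h : j = i ∨ j = i + 1 <;> simp [h]
  map_smul' := by
    intro c p
    funext j
    by_cases h : j = i ∨ j = i + 1 <;> simp [h]

lemma pick_on {i j : ℕ} (x z : E) (h : j = i ∨ j = i + 1) : pick i (x, z) j = z j := by
  change (if j = i ∨ j = i + 1 then z j else x j) = z j
  rw [if_pos h]

lemma pick_off {i j : ℕ} (x z : E) (h : ¬ (j = i ∨ j = i + 1)) : pick i (x, z) j = x j := by
  change (if j = i ∨ j = i + 1 then z j else x j) = x j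
  rw [if_neg h]

lemma pick_supp {i : ℕ} {x z : E} (hx : x ∈ supp N) (hz : z ∈ supp N) :
    pick i (x, z) ∈ supp N := by
  intro j hj
  by_cases h : j = i ∨ j = i + 1
  · rw [pick_on x z h]; exact hz j hj
  · rw [pick_off x z h]; exact hx j hj

/-- The relation of a letter only involves its two positions. -/
lemma rel_congr {a : BL} {x y x' y' : E} (h : rel a x y)
    (h1 : x' a.ix = x a.ix) (h2 : x' (a.ix + 1) = x (a.ix + 1))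
    (h3 : y' a.ix = y a.ix) (h4 : y' (a.ix + 1) = y (a.ix + 1))
    (h5 : ∀ j, j ≠ a.ix → j ≠ a.ix + 1 → y' j = x' j) : rel a x' y' := by
  refine ⟨h5, ?_⟩
  cases a with
  | sg i s => trivial
  | ta i =>
    obtain ⟨_, k1, k2⟩ := h
    simp only [BL.ix] at h1 h2 h3 h4
    exact ⟨by rw [h3, h2, k1], by rw [h4, h1, k2]⟩

/-- Key step of far commutation. -/
lemma far_key {a b : BL} (hab : a.ix + 2 ≤ b.ix ∨ b.ix + 2 ≤ a.ix) {x y z : E}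
    (h1 : rel a x y) (h2 : rel b y z) :
    rel b x (pick b.ix (x, z)) ∧ rel a (pick b.ix (x, z)) z ∧
    (pick b.ix (x, z)) b.ix = z b.ix ∧ (pick b.ix (x, z)) (b.ix + 1) = z (b.ix + 1) ∧
    (pick b.ix (x, z)) a.ix = x a.ix ∧ (pick b.ix (x, z)) (a.ix + 1) = x (a.ix + 1) ∧
    y b.ix = x b.ix ∧ y (b.ix + 1) = x (b.ix + 1) ∧
    z a.ix = y a.ix ∧ z (a.ix + 1) = y (a.ix + 1) := by
  have e1 : (pick b.ix (x, z)) b.ix = z b.ix := pick_on _ _ (Or.inl rfl)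
  have e2 : (pick b.ix (x, z)) (b.ix + 1) = z (b.ix + 1) := pick_on _ _ (Or.inr rfl)
  have e3 : (pick b.ix (x, z)) a.ix = x a.ix := pick_off _ _ (by omega)
  have e4 : (pick b.ix (x, z)) (a.ix + 1) = x (a.ix + 1) := pick_off _ _ (by omega)
  have f1 : y b.ix = x b.ix := h1.1 _ (by omega) (by omega)
  have f2 : y (b.ix + 1) = x (b.ix + 1) := h1.1 _ (by omega) (by omega)
  have f3 : z a.ix = y a.ix := h2.1 _ (by omega) (by omega)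
  have f4 : z (a.ix + 1) = y (a.ix + 1) := h2.1 _ (by omega) (by omega)
  refine ⟨rel_congr h2 f1.symm f2.symm e1 e2 ?_, rel_congr h1 e3 e4 f3 f4 ?_,
    e1, e2, e3, e4, f1, f2, f3, f4⟩
  · intro j hj hj'
    exact pick_off _ _ (by omega)
  · intro j hj hj'
    by_cases h : j = b.ix ∨ j = b.ix + 1
    · exact (pick_on x z h).symm
    · rw [pick_off x z h, h2.1 j (by omega) (by omega), h1.1 j hj hj']

lemma ep_far (a b : BL) (hab : a.ix + 2 ≤ b.ix) (K : QR N) :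
    Ep (comp (lt N a) (comp (lt N b) K)) (comp (lt N b) (comp (lt N a) K)) := by
  let X : (E × E) × ((E × E) × K.V) →ₗ[ℝ] E := LinearMap.fst ℝ E E ∘ₗ LinearMap.fst ℝ _ _
  let Z : (E × E) × ((E × E) × K.V) →ₗ[ℝ] E :=
    LinearMap.snd ℝ E E ∘ₗ LinearMap.fst ℝ _ _ ∘ₗ LinearMap.snd ℝ (E × E) _
  let Y : (E × E) × ((E × E) × K.V) →ₗ[ℝ] E := pick b.ix ∘ₗ X.prod Z
  refine ⟨(X.prod Y).prod ((Y.prod Z).prod (LinearMap.snd ℝ (E × E) K.V ∘ₗ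
    LinearMap.snd ℝ (E × E) ((E × E) × K.V))), ?_, ?_, ?_, ?_, ?_⟩
  · rintro ⟨⟨x, y⟩, ⟨⟨y', z⟩, k⟩⟩ hv
    obtain ⟨⟨s1, _, h1⟩, ⟨_, s2, h2⟩, h3, h4, h5⟩ := mem2.1 hv
    dsimp only at s1 s2 h1 h2 h3 h4 h5
    subst h4
    obtain ⟨k1, k2, _⟩ := far_key (Or.inl hab) h1 h2
    exact mem2.2 ⟨⟨s1, pick_supp s1 s2, k1⟩, ⟨pick_supp s1 s2, s2, k2⟩, h3, rfl, h5⟩
  · rintro ⟨⟨x, y⟩, ⟨⟨y', z⟩, k⟩⟩ hv
    obtain ⟨⟨s1, _, h1⟩, ⟨_, s2, h2⟩, h3, h4, h5⟩ := mem2.1 hv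
    dsimp only at s1 s2 h1 h2 h3 h4 h5
    subst h4
    obtain ⟨k1, k2, g1, g2, g3, g4, g5, g6, g7, g8⟩ := far_key (Or.inr hab) h1 h2
    refine ⟨((x, pick a.ix (x, z)), ((pick a.ix (x, z), z), k)),
      mem2.2 ⟨⟨s1, pick_supp s1 s2, k1⟩, ⟨pick_supp s1 s2, s2, k2⟩, h3, rfl, h5⟩, ?_⟩
    have e : pick b.ix (x, z) = y := by
      funext j
      by_cases h : j = b.ix ∨ j = b.ix + 1
      · rw [pick_on x z h]
        exact h2.1 j (by omega) (by omega)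
      · rw [pick_off x z h]
        exact (h1.1 j (by omega) (by omega)).symm
    change ((x, pick b.ix (x, z)), ((pick b.ix (x, z), z), k)) = _
    rw [e]
  · intro v _
    rfl
  · intro v _
    rfl
  · rintro ⟨⟨x, y⟩, ⟨⟨y', z⟩, k⟩⟩ hv
    obtain ⟨⟨s1, _, h1⟩, ⟨_, s2, h2⟩, h3, h4, h5⟩ := mem2.1 hv
    dsimp only at s1 s2 h1 h2 h3 h4 h5
    subst h4
    obtain ⟨k1, k2, g1, g2, g3, g4, g5, g6, g7, g8⟩ := far_key (Or.inl hab) h1 h2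
    rw [q1, q1, q1, q1]
    change qv b (x b.ix) (x (b.ix + 1)) (pick b.ix (x, z) b.ix) (pick b.ix (x, z) (b.ix + 1)) +
      (qv a (pick b.ix (x, z) a.ix) (pick b.ix (x, z) (a.ix + 1)) (z a.ix) (z (a.ix + 1)) +
        K.q k) = qv a (x a.ix) (x (a.ix + 1)) (y a.ix) (y (a.ix + 1)) +
      (qv b (y b.ix) (y (b.ix + 1)) (z b.ix) (z (b.ix + 1)) + K.q k)
    rw [g1, g2, g3, g4, g5, g6, g7, g8]
    ring

end SG
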