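import Pool.Agent.H70.SG.C

/-!
# Local moves on three strands, virtualization, cancellation
-/

namespace SG

open QuadraticMap Module ZM

variable {N : ℕ}

lemma swL_at (i : ℕ) (x : E) : swL i x i = x (i + 1) := by rw [swL_apply, sw_l]
lemma swL_at' (i : ℕ) (x : E) : swL i x (i + 1) = x i := by rw [swL_apply, sw_r]
lemma swL_off {i j : ℕ} (x : E) (h : j ≠ i) (h' : j ≠ i + 1) : swL i x j = x j := by
  rw [swL_apply, sw_o h h']

lemma q3 (a b c : BL) (K : QR N) (x y y' z z' w : E) (k : K.V) :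
    (comp (lt N a) (comp (lt N b) (comp (lt N c) K))).q ((x, y), ((y', z), ((z', w), k))) =
    qv a (x a.ix) (x (a.ix + 1)) (y a.ix) (y (a.ix + 1)) +
    (qv b (y' b.ix) (y' (b.ix + 1)) (z b.ix) (z (b.ix + 1)) +
    (qv c (z' c.ix) (z' (c.ix + 1)) (w c.ix) (w (c.ix + 1)) + K.q k)) := by
  rw [q1, q1, q1]

lemma virt_braid (i : ℕ) (x : E) :
    swL i (swL (i + 1) (swL i x)) = swL (i + 1) (swL i (swL (i + 1) x)) := by
  funext j
  simp only [swL_apply]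
  congr 1
  simp only [sw]
  split_ifs <;> omega

section

variable (K : QR N)

/-- Projections. -/
abbrev PX : (E × E) × ((E × E) × ((E × E) × K.V)) →ₗ[ℝ] E :=
  LinearMap.fst ℝ E E ∘ₗ LinearMap.fst ℝ _ _
/-- Projections. -/
abbrev PW : (E × E) × ((E × E) × ((E × E) × K.V)) →ₗ[ℝ] E :=
  LinearMap.snd ℝ E E ∘ₗ LinearMap.fst ℝ _ _ ∘ₗ LinearMap.snd ℝ (E × E) _ ∘ₗ
    LinearMap.snd ℝ (E × E) _
/-- Projections. -/
abbrev PK : (E × E) × ((E × E) × ((E × E) × K.V)) →ₗ[ℝ] K.V :=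
  LinearMap.snd ℝ (E × E) _ ∘ₗ LinearMap.snd ℝ (E × E) _ ∘ₗ LinearMap.snd ℝ (E × E) _

/-- Change of the two middle labels. -/
abbrev chg (A B : (E × E) × ((E × E) × ((E × E) × K.V)) →ₗ[ℝ] E) :
    (E × E) × ((E × E) × ((E × E) × K.V)) →ₗ[ℝ] (E × E) × ((E × E) × ((E × E) × K.V)) :=
  ((PX K).prod A).prod ((A.prod B).prod ((B.prod (PW K)).prod (PK K)))

end

lemma ep_v3 (i : ℕ) (hi : i + 2 < N) (K : QR N) :
    Ep (comp (lt N (.ta i)) (comp (lt N (.ta (i + 1))) (comp (lt N (.ta i)) K)))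
      (comp (lt N (.ta (i + 1))) (comp (lt N (.ta i)) (comp (lt N (.ta (i + 1))) K))) := by
  refine ⟨chg K (swL (i + 1) ∘ₗ PX K) (swL i ∘ₗ swL (i + 1) ∘ₗ PX K), ?_, ?_, ?_, ?_, ?_⟩
  · rintro ⟨⟨x, y⟩, ⟨⟨y', z⟩, ⟨⟨z', w⟩, k⟩⟩⟩ hv
    obtain ⟨⟨s1, _, h1⟩, ⟨_, _, h2⟩, ⟨_, s4, h3⟩, h4, h5, h6, h7⟩ := mem3.1 hv
    dsimp only at s1 s4 h1 h2 h3 h4 h5 h6 h7
    subst h5 h6
    rw [rel_ta] at h1 h2 h3
    have t1 := swL_supp (i := i + 1) (by omega) s1
    have t2 := swL_supp (i := i) (by omega) t1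
    refine mem3.2 ⟨⟨s1, t1, rel_ta.2 rfl⟩, ⟨t1, t2, rel_ta.2 rfl⟩, ⟨t2, s4, rel_ta.2 ?_⟩, h4,
      rfl, rfl, h7⟩
    change w = swL (i + 1) (swL i (swL (i + 1) x))
    rw [← virt_braid, h3, h2, h1]
  · rintro ⟨⟨x, y⟩, ⟨⟨y', z⟩, ⟨⟨z', w⟩, k⟩⟩⟩ hv
    obtain ⟨⟨s1, _, h1⟩, ⟨_, _, h2⟩, ⟨_, s4, h3⟩, h4, h5, h6, h7⟩ := mem3.1 hv
    dsimp only at s1 s4 h1 h2 h3 h4 h5 h6 h7
    subst h5 h6
    rw [rel_ta] at h1 h2 h3
    have t1 := swL_supp (i := i) (by omega) s1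
    have t2 := swL_supp (i := i + 1) (by omega) t1
    refine ⟨((x, swL i x), ((swL i x, swL (i + 1) (swL i x)), ((swL (i + 1) (swL i x), w), k))),
      mem3.2 ⟨⟨s1, t1, rel_ta.2 rfl⟩, ⟨t1, t2, rel_ta.2 rfl⟩, ⟨t2, s4, rel_ta.2 ?_⟩, h4,
      rfl, rfl, h7⟩, ?_⟩
    · change w = swL i (swL (i + 1) (swL i x))
      rw [virt_braid, h3, h2, h1]
    · change ((x, swL (i + 1) x), ((swL (i + 1) x, swL i (swL (i + 1) x)),
        ((swL i (swL (i + 1) x), w), k))) = _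
      rw [h2, h1]
  · intro v _
    rfl
  · intro v _
    rfl
  · rintro ⟨⟨x, y⟩, ⟨⟨y', z⟩, ⟨⟨z', w⟩, k⟩⟩⟩ _
    refine Eq.trans (q3 (.ta (i + 1)) (.ta i) (.ta (i + 1)) K x (swL (i + 1) x) (swL (i + 1) x)
      (swL i (swL (i + 1) x)) (swL i (swL (i + 1) x)) w k) (Eq.trans ?_
      (q3 (.ta i) (.ta (i + 1)) (.ta i) K x y y' z z' w k).symm)
    simp only [qv]

lemma mix_key (i : ℕ) (w : E) :
    swL (i + 1) (swL i (swL i (swL (i + 1) w))) = w := by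
  rw [swL_swL, swL_swL]

lemma ep_mix (i : ℕ) (s : Bool) (hi : i + 2 < N) (K : QR N) :
    Ep (comp (lt N (.ta i)) (comp (lt N (.ta (i + 1))) (comp (lt N (.sg i s)) K)))
      (comp (lt N (.sg (i + 1) s)) (comp (lt N (.ta i)) (comp (lt N (.ta (i + 1))) K))) := by
  refine ⟨chg K (swL i ∘ₗ swL (i + 1) ∘ₗ PW K) (swL (i + 1) ∘ₗ PW K), ?_, ?_, ?_, ?_, ?_⟩
  · rintro ⟨⟨x, y⟩, ⟨⟨y', z⟩, ⟨⟨z', w⟩, k⟩⟩⟩ hv
    obtain ⟨⟨s1, _, h1⟩, ⟨_, _, h2⟩, ⟨_, s4, h3⟩, h4, h5, h6, h7⟩ := mem3.1 hv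
    dsimp only at s1 s4 h1 h2 h3 h4 h5 h6 h7
    subst h5 h6
    rw [rel_ta] at h1 h2
    rw [rel_sg] at h3
    have t1 := swL_supp (i := i + 1) (by omega) s4
    have t2 := swL_supp (i := i) (by omega) t1
    refine mem3.2 ⟨⟨s1, t2, rel_sg.2 ?_⟩, ⟨t2, t1, rel_ta.2 (swL_swL _ _).symm⟩,
      ⟨t1, s4, rel_ta.2 (swL_swL _ _).symm⟩, h4, rfl, rfl, h7⟩
    intro j hj hj'
    change swL i (swL (i + 1) w) j = x j
    by_cases h : j = i
    · subst h
      rw [swL_at, swL_at, h3 _ (by omega) (by omega), h2, swL_at', h1, swL_at']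
    · rw [swL_off _ h hj, swL_off _ hj hj', h3 _ h hj, h2, swL_off _ hj hj', h1, swL_off _ h hj]
  · rintro ⟨⟨x, y⟩, ⟨⟨y', z⟩, ⟨⟨z', w⟩, k⟩⟩⟩ hv
    obtain ⟨⟨s1, _, h1⟩, ⟨_, _, h2⟩, ⟨_, s4, h3⟩, h4, h5, h6, h7⟩ := mem3.1 hv
    dsimp only at s1 s4 h1 h2 h3 h4 h5 h6 h7
    subst h5 h6
    rw [rel_ta] at h2 h3
    rw [rel_sg] at h1
    have t1 := swL_supp (i := i) (by omega) s1
    have t2 := swL_supp (i := i + 1) (by omega) t1
    refine ⟨((x, swL i x), ((swL i x, swL (i + 1) (swL i x)), ((swL (i + 1) (swL i x), w), k))),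
      mem3.2 ⟨⟨s1, t1, rel_ta.2 rfl⟩, ⟨t1, t2, rel_ta.2 rfl⟩, ⟨t2, s4, rel_sg.2 ?_⟩, h4,
      rfl, rfl, h7⟩, ?_⟩
    · intro j hj hj'
      change w j = swL (i + 1) (swL i x) j
      rw [h3, h2]
      by_cases h : j = i + 1 + 1
      · subst h
        rw [swL_at', swL_at', swL_at', swL_at', h1 _ (by omega) (by omega)]
      · rw [swL_off _ hj' h, swL_off _ hj hj', swL_off _ hj' h, swL_off _ hj hj', h1 _ hj' h]
    · change ((x, swL i (swL (i + 1) w)), ((swL i (swL (i + 1) w), swL (i + 1) w),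
        ((swL (i + 1) w, w), k))) = _
      rw [h3, h2, swL_swL, swL_swL]
  · intro v _
    rfl
  · intro v _
    rfl
  · rintro ⟨⟨x, y⟩, ⟨⟨y', z⟩, ⟨⟨z', w⟩, k⟩⟩⟩ hv
    obtain ⟨⟨s1, _, h1⟩, ⟨_, _, h2⟩, ⟨_, s4, h3⟩, h4, h5, h6, h7⟩ := mem3.1 hv
    dsimp only at s1 s4 h1 h2 h3 h4 h5 h6 h7
    subst h5 h6
    rw [rel_ta] at h1 h2
    rw [rel_sg] at h3
    refine Eq.trans (q3 (.sg (i + 1) s) (.ta i) (.ta (i + 1)) K x (swL i (swL (i + 1) w))
      (swL i (swL (i + 1) w)) (swL (i + 1) w) (swL (i + 1) w) w k) (Eq.trans ?_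
      (q3 (.ta i) (.ta (i + 1)) (.sg i s) K x y y z z w k).symm)
    simp only [BL.ix]
    have e1 : swL i (swL (i + 1) w) (i + 1) = w i := by
      rw [swL_at', swL_off _ (by omega) (by omega)]
    have e2 : swL i (swL (i + 1) w) (i + 1 + 1) = w (i + 1) := by
      rw [swL_off _ (by omega) (by omega), swL_at']
    have e3 : z i = x (i + 1) := by
      rw [h2, swL_off _ (by omega) (by omega), h1, swL_at]
    have e4 : z (i + 1) = x (i + 1 + 1) := by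
      rw [h2, swL_at, h1, swL_off _ (by omega) (by omega)]
    rw [e1, e2, e3, e4]
    simp only [qv]
    ring

/-- Crossing virtualization. -/
lemma ep_virt (i : ℕ) (s : Bool) (hi : i + 1 < N) (K : QR N) :
    Ep (comp (lt N (.ta i)) (comp (lt N (.sg i s)) (comp (lt N (.ta i)) K)))
      (comp (lt N (.sg i s)) K) := by
  refine ⟨((PX K).prod (PW K)).prod (PK K), ?_, ?_, ?_, ?_, ?_⟩
  · rintro ⟨⟨x, y⟩, ⟨⟨y', z⟩, ⟨⟨z', w⟩, k⟩⟩⟩ hv
    obtain ⟨⟨s1, _, h1⟩, ⟨_, _, h2⟩, ⟨_, s4, h3⟩, h4, h5, h6, h7⟩ := mem3.1 hv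
    dsimp only at s1 s4 h1 h2 h3 h4 h5 h6 h7
    subst h5 h6
    rw [rel_ta] at h1 h3
    rw [rel_sg] at h2
    refine mem1.2 ⟨⟨s1, s4, rel_sg.2 ?_⟩, h4, h7⟩
    intro j hj hj'
    change w j = x j
    rw [h3, swL_off _ hj hj', h2 _ hj hj', h1, swL_off _ hj hj']
  · rintro ⟨⟨x, w⟩, k⟩ hv
    obtain ⟨⟨s1, s4, h1⟩, h4, h7⟩ := mem1.1 hv
    dsimp only at s1 s4 h1 h4 h7
    rw [rel_sg] at h1
    have t1 := swL_supp hi s1
    have t2 := swL_supp hi s4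
    refine ⟨((x, swL i x), ((swL i x, swL i w), ((swL i w, w), k))),
      mem3.2 ⟨⟨s1, t1, rel_ta.2 rfl⟩, ⟨t1, t2, rel_sg.2 ?_⟩,
        ⟨t2, s4, rel_ta.2 (swL_swL _ _).symm⟩, h4, rfl, rfl, h7⟩, rfl⟩
    intro j hj hj'
    change swL i w j = swL i x j
    rw [swL_off _ hj hj', swL_off _ hj hj', h1 _ hj hj']
  · intro v _
    rfl
  · intro v _
    rfl
  · rintro ⟨⟨x, y⟩, ⟨⟨y', z⟩, ⟨⟨z', w⟩, k⟩⟩⟩ hv
    obtain ⟨⟨s1, _, h1⟩, ⟨_, _, h2⟩, ⟨_, s4, h3⟩, h4, h5, h6, h7⟩ := mem3.1 hv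
    dsimp only at s1 s4 h1 h2 h3 h4 h5 h6 h7
    subst h5 h6
    rw [rel_ta] at h1 h3
    refine Eq.trans (q1 (.sg i s) K ((x, w), k)) (Eq.trans ?_
      (q3 (.ta i) (.sg i s) (.ta i) K x y y z z w k).symm)
    simp only [BL.ix]
    rw [h1, h3, swL_at, swL_at', swL_at, swL_at']
    simp only [qv]
    ring

/-- The third Reidemeister move. -/
def mY (i : ℕ) (K : QR N) : (E × E) × ((E × E) × ((E × E) × K.V)) →ₗ[ℝ] E where
  toFun v := fun j => if j = i + 1 then v.1.2 (i + 1) + v.1.1 (i + 2) - v.1.1 i else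
    if j = i + 2 then v.2.1.2 (i + 1) + v.1.1 (i + 2) - v.2.2.1.2 (i + 1) else v.1.1 j
  map_add' := by
    intro p q
    funext j
    by_cases h : j = i + 1
    · simp only [h, if_true, Prod.fst_add, Prod.snd_add, Pi.add_apply]; ring
    · by_cases h' : j = i + 2
      · subst h'
        simp only [show ¬ (i + 2 = i + 1) by omega, if_true, if_false, Prod.fst_add, Prod.snd_add,
          Pi.add_apply]
        ring
      · simp only [h, h', if_false, Prod.fst_add, Pi.add_apply]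
  map_smul' := by
    intro c p
    funext j
    by_cases h : j = i + 1
    · simp only [h, if_true, Prod.smul_fst, Prod.smul_snd, Pi.smul_apply, smul_eq_mul,
        RingHom.id_apply]; ring
    · by_cases h' : j = i + 2
      · subst h'
        simp only [show ¬ (i + 2 = i + 1) by omega, if_true, if_false, Prod.smul_fst,
          Prod.smul_snd, Pi.smul_apply, smul_eq_mul, RingHom.id_apply]
        ring
      · simp only [h, h', if_false, Prod.smul_fst, Pi.smul_apply, RingHom.id_apply]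

/-- The third Reidemeister move. -/
def mZ (i : ℕ) (K : QR N) : (E × E) × ((E × E) × ((E × E) × K.V)) →ₗ[ℝ] E where
  toFun v := fun j => if j = i then v.2.2.1.2 i else if j = i + 1 then
    v.1.2 i + v.2.2.1.2 (i + 1) - v.1.1 i else
    if j = i + 2 then v.2.1.2 (i + 1) + v.1.1 (i + 2) - v.2.2.1.2 (i + 1) else v.1.1 j
  map_add' := by
    intro p q
    funext j
    by_cases h0 : j = i
    · simp only [h0, if_true, Prod.fst_add, Prod.snd_add, Pi.add_apply]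
    · by_cases h : j = i + 1
      · subst h
        simp only [show ¬ (i + 1 = i) by omega, if_true, if_false, Prod.fst_add, Prod.snd_add,
          Pi.add_apply]
        ring
      · by_cases h' : j = i + 2
        · subst h'
          simp only [show ¬ (i + 2 = i + 1) by omega, show ¬ (i + 2 = i) by omega, if_true,
            if_false, Prod.fst_add, Prod.snd_add, Pi.add_apply]
          ring
        · simp only [h0, h, h', if_false, Prod.fst_add, Pi.add_apply]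
  map_smul' := by
    intro c p
    funext j
    by_cases h0 : j = i
    · simp only [h0, if_true, Prod.smul_snd, Prod.smul_fst, Pi.smul_apply, RingHom.id_apply]
    · by_cases h : j = i + 1
      · subst h
        simp only [show ¬ (i + 1 = i) by omega, if_true, if_false, Prod.smul_fst, Prod.smul_snd,
          Pi.smul_apply, smul_eq_mul, RingHom.id_apply]
        ring
      · by_cases h' : j = i + 2
        · subst h'
          simp only [show ¬ (i + 2 = i + 1) by omega, show ¬ (i + 2 = i) by omega, if_true,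
            if_false, Prod.smul_fst, Prod.smul_snd, Pi.smul_apply, smul_eq_mul, RingHom.id_apply]
          ring
        · simp only [h0, h, h', if_false, Prod.smul_fst, Pi.smul_apply, RingHom.id_apply]

end SG
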