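import Pool.Agent.H70.SG.D

/-!
# The third Reidemeister move and cancellation
-/

namespace SG

open QuadraticMap Module ZM

variable {N : ℕ}

section r3

variable (i : ℕ) (K : QR N) (x y y' z z' w : E) (k : K.V)

lemma mY_1 : mY i K ((x, y), ((y', z), ((z', w), k))) (i + 1) = y (i + 1) + x (i + 2) - x i := by
  change (if i + 1 = i + 1 then y (i + 1) + x (i + 2) - x i else _) = _
  rw [if_pos rfl]

lemma mY_2 : mY i K ((x, y), ((y', z), ((z', w), k))) (i + 2) =
    z (i + 1) + x (i + 2) - w (i + 1) := by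
  change (if i + 2 = i + 1 then y (i + 1) + x (i + 2) - x i else
    if i + 2 = i + 2 then z (i + 1) + x (i + 2) - w (i + 1) else _) = _
  rw [if_neg (by omega), if_pos rfl]

lemma mY_o {j : ℕ} (h1 : j ≠ i + 1) (h2 : j ≠ i + 2) :
    mY i K ((x, y), ((y', z), ((z', w), k))) j = x j := by
  change (if j = i + 1 then y (i + 1) + x (i + 2) - x i else
    if j = i + 2 then z (i + 1) + x (i + 2) - w (i + 1) else x j) = _
  rw [if_neg h1, if_neg h2]

lemma mZ_0 : mZ i K ((x, y), ((y', z), ((z', w), k))) i = w i := by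
  change (if i = i then w i else _) = _
  rw [if_pos rfl]

lemma mZ_1 : mZ i K ((x, y), ((y', z), ((z', w), k))) (i + 1) = y i + w (i + 1) - x i := by
  change (if i + 1 = i then w i else if i + 1 = i + 1 then y i + w (i + 1) - x i else _) = _
  rw [if_neg (by omega), if_pos rfl]

lemma mZ_2 : mZ i K ((x, y), ((y', z), ((z', w), k))) (i + 2) =
    z (i + 1) + x (i + 2) - w (i + 1) := by
  change (if i + 2 = i then w i else if i + 2 = i + 1 then y i + w (i + 1) - x i else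
    if i + 2 = i + 2 then z (i + 1) + x (i + 2) - w (i + 1) else _) = _
  rw [if_neg (by omega), if_neg (by omega), if_pos rfl]

lemma mZ_o {j : ℕ} (h0 : j ≠ i) (h1 : j ≠ i + 1) (h2 : j ≠ i + 2) :
    mZ i K ((x, y), ((y', z), ((z', w), k))) j = x j := by
  change (if j = i then w i else if j = i + 1 then y i + w (i + 1) - x i else
    if j = i + 2 then z (i + 1) + x (i + 2) - w (i + 1) else x j) = _
  rw [if_neg h0, if_neg h1, if_neg h2]

end r3

/-- The third Reidemeister move. -/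
lemma ep_r3 (i : ℕ) (hi : i + 2 < N) (K : QR N) :
    Ep (comp (lt N (.sg i true)) (comp (lt N (.sg (i + 1) true)) (comp (lt N (.sg i true)) K)))
      (comp (lt N (.sg (i + 1) true)) (comp (lt N (.sg i true))
        (comp (lt N (.sg (i + 1) true)) K))) := by
  refine ⟨chg K (mY i K) (mZ i K), ?_, ?_, ?_, ?_, ?_⟩
  · rintro ⟨⟨x, y⟩, ⟨⟨y', z⟩, ⟨⟨z', w⟩, k⟩⟩⟩ hv
    obtain ⟨⟨s1, _, h1⟩, ⟨_, _, h2⟩, ⟨_, s4, h3⟩, h4, h5, h6, h7⟩ := mem3.1 hv
    dsimp only at s1 s4 h1 h2 h3 h4 h5 h6 h7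
    subst h5 h6
    rw [rel_sg] at h1 h2 h3
    have t1 : mY i K ((x, y), ((y, z), ((z, w), k))) ∈ supp N := by
      intro j hj
      rw [mY_o _ _ _ _ _ _ _ _ _ (by omega) (by omega)]
      exact s1 j hj
    have t2 : mZ i K ((x, y), ((y, z), ((z, w), k))) ∈ supp N := by
      intro j hj
      rw [mZ_o _ _ _ _ _ _ _ _ _ (by omega) (by omega) (by omega)]
      exact s1 j hj
    refine mem3.2 ⟨⟨s1, t1, rel_sg.2 ?_⟩, ⟨t1, t2, rel_sg.2 ?_⟩, ⟨t2, s4, rel_sg.2 ?_⟩, h4,
      rfl, rfl, h7⟩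
    · intro j hj hj'
      exact mY_o _ _ _ _ _ _ _ _ _ hj hj'
    · intro j hj hj'
      change mZ i K ((x, y), ((y, z), ((z, w), k))) j = mY i K ((x, y), ((y, z), ((z, w), k))) j
      by_cases h : j = i + 2
      · subst h
        rw [mZ_2, mY_2]
      · rw [mZ_o _ _ _ _ _ _ _ _ _ hj hj' h, mY_o _ _ _ _ _ _ _ _ _ hj' h]
    · intro j hj hj'
      change w j = mZ i K ((x, y), ((y, z), ((z, w), k))) j
      by_cases h : j = i
      · subst h
        rw [mZ_0]
      · rw [mZ_o _ _ _ _ _ _ _ _ _ h hj hj', h3 j h hj, h2 j hj hj', h1 j h hj]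
  · rintro ⟨⟨x, Y⟩, ⟨⟨Y', Z⟩, ⟨⟨Z', w⟩, k⟩⟩⟩ hv
    obtain ⟨⟨s1, _, h1⟩, ⟨_, _, h2⟩, ⟨_, s4, h3⟩, h4, h5, h6, h7⟩ := mem3.1 hv
    dsimp only at s1 s4 h1 h2 h3 h4 h5 h6 h7
    subst h5 h6
    rw [rel_sg] at h1 h2 h3
    obtain ⟨y, hy⟩ : ∃ y : E, y = fun j => if j = i then Z (i + 1) - w (i + 1) + x i else
      if j = i + 1 then Y (i + 1) - x (i + 2) + x i else x j := ⟨_, rfl⟩
    obtain ⟨z, hz⟩ : ∃ z : E, z = fun j => if j = i then Z (i + 1) - w (i + 1) + x i else
      if j = i + 1 then Y (i + 2) - x (i + 2) + w (i + 1) else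
      if j = i + 2 then w (i + 2) else x j := ⟨_, rfl⟩
    have y0 : y i = Z (i + 1) - w (i + 1) + x i := by rw [hy]; simp
    have y1 : y (i + 1) = Y (i + 1) - x (i + 2) + x i := by rw [hy]; simp
    have yo : ∀ j, j ≠ i → j ≠ i + 1 → y j = x j := by
      intro j h h'; rw [hy]; simp [h, h']
    have z0 : z i = Z (i + 1) - w (i + 1) + x i := by rw [hz]; simp
    have z1 : z (i + 1) = Y (i + 2) - x (i + 2) + w (i + 1) := by rw [hz]; simp
    have z2 : z (i + 2) = w (i + 2) := by rw [hz]; simp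
    have zo : ∀ j, j ≠ i → j ≠ i + 1 → j ≠ i + 2 → z j = x j := by
      intro j h h' h''; rw [hz]; simp [h, h', h'']
    have t1 : y ∈ supp N := by
      intro j hj
      rw [yo j (by omega) (by omega)]
      exact s1 j hj
    have t2 : z ∈ supp N := by
      intro j hj
      rw [zo j (by omega) (by omega) (by omega)]
      exact s1 j hj
    refine ⟨((x, y), ((y, z), ((z, w), k))), mem3.2 ⟨⟨s1, t1, rel_sg.2 yo⟩,
      ⟨t1, t2, rel_sg.2 ?_⟩, ⟨t2, s4, rel_sg.2 ?_⟩, h4, rfl, rfl, h7⟩, ?_⟩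
    · intro j hj hj'
      change z j = y j
      by_cases h : j = i
      · subst h
        rw [z0, y0]
      · rw [zo j h hj hj', yo j h hj]
    · intro j hj hj'
      change w j = z j
      by_cases h : j = i + 2
      · subst h
        rw [z2]
      · rw [zo j hj hj' h, h3 j hj' h, h2 j hj hj', h1 j hj' h]
    · have eY : mY i K ((x, y), ((y, z), ((z, w), k))) = Y := by
        funext j
        by_cases h : j = i + 1
        · subst h
          rw [mY_1, y1]
          ring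
        · by_cases h' : j = i + 2
          · subst h'
            rw [mY_2, z1]
            ring
          · rw [mY_o _ _ _ _ _ _ _ _ _ h h', h1 j h h']
      have eZ : mZ i K ((x, y), ((y, z), ((z, w), k))) = Z := by
        funext j
        by_cases h0 : j = i
        · subst h0
          rw [mZ_0, h3 _ (by omega) (by omega)]
        · by_cases h : j = i + 1
          · subst h
            rw [mZ_1, y0]
            ring
          · by_cases h' : j = i + 2
            · subst h'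
              rw [mZ_2, z1, h2 _ (by omega) (by omega)]
              ring
            · rw [mZ_o _ _ _ _ _ _ _ _ _ h0 h h', h2 j h0 h, h1 j h h']
      change ((x, mY i K ((x, y), ((y, z), ((z, w), k)))),
        ((mY i K ((x, y), ((y, z), ((z, w), k))), mZ i K ((x, y), ((y, z), ((z, w), k)))),
        ((mZ i K ((x, y), ((y, z), ((z, w), k))), w), k))) = _
      rw [eY, eZ]
  · intro v _
    rfl
  · intro v _
    rfl
  · rintro ⟨⟨x, y⟩, ⟨⟨y', z⟩, ⟨⟨z', w⟩, k⟩⟩⟩ hv
    obtain ⟨⟨s1, _, h1⟩, ⟨_, _, h2⟩, ⟨_, s4, h3⟩, h4, h5, h6, h7⟩ := mem3.1 hv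
    dsimp only at s1 s4 h1 h2 h3 h4 h5 h6 h7
    subst h5 h6
    rw [rel_sg] at h1 h2 h3
    obtain ⟨A, hA⟩ : ∃ A, A = mY i K ((x, y), ((y, z), ((z, w), k))) := ⟨_, rfl⟩
    obtain ⟨B, hB⟩ : ∃ B, B = mZ i K ((x, y), ((y, z), ((z, w), k))) := ⟨_, rfl⟩
    have a0 : A i = x i := by rw [hA]; exact mY_o _ _ _ _ _ _ _ _ _ (by omega) (by omega)
    have a1 : A (i + 1) = y (i + 1) + x (i + 1 + 1) - x i := by rw [hA, mY_1]
    have a2 : A (i + 1 + 1) = z (i + 1) + x (i + 1 + 1) - w (i + 1) := by rw [hA]; exact mY_2 _ _ _ _ _ _ _ _ _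
    have b0 : B i = w i := by rw [hB, mZ_0]
    have b1 : B (i + 1) = y i + w (i + 1) - x i := by rw [hB, mZ_1]
    have b2 : B (i + 1 + 1) = z (i + 1) + x (i + 1 + 1) - w (i + 1) := by rw [hB]; exact mZ_2 _ _ _ _ _ _ _ _ _
    refine Eq.trans (q3 (.sg (i + 1) true) (.sg i true) (.sg (i + 1) true) K x
      (mY i K ((x, y), ((y, z), ((z, w), k)))) (mY i K ((x, y), ((y, z), ((z, w), k))))
      (mZ i K ((x, y), ((y, z), ((z, w), k)))) (mZ i K ((x, y), ((y, z), ((z, w), k)))) w k)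
      (Eq.trans ?_
      (q3 (.sg i true) (.sg (i + 1) true) (.sg i true) K x y y z z w k).symm)
    rw [← hA, ← hB]
    simp only [BL.ix, qv, if_true]
    rw [a0, a1, a2, b0, b1, b2]
    have e1 : z i = y i := h2 i (by omega) (by omega)
    have e2 : y (i + 1 + 1) = x (i + 1 + 1) := h1 _ (by omega) (by omega)
    have e3 : w (i + 1 + 1) = z (i + 1 + 1) := h3 _ (by omega) (by omega)
    rw [e1, e2, e3]
    ring

/-- The unit vector. -/
def ev (j : ℕ) : E := Pi.single j 1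

lemma ev_same (j : ℕ) : ev j j = 1 := Pi.single_eq_same j 1
lemma ev_ne {j k : ℕ} (h : k ≠ j) : ev j k = 0 := Pi.single_eq_of_ne h 1

lemma ev_supp {j : ℕ} (hj : j < N) : ev j ∈ supp N := by
  intro k hk
  exact ev_ne (by omega)

lemma q2 (a b : BL) (K : QR N) (x y y' z : E) (k : K.V) :
    (comp (lt N a) (comp (lt N b) K)).q ((x, y), ((y', z), k)) =
    qv a (x a.ix) (x (a.ix + 1)) (y a.ix) (y (a.ix + 1)) +
    (qv b (y' b.ix) (y' (b.ix + 1)) (z b.ix) (z (b.ix + 1)) + K.q k) := by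
  rw [q1, q1]

/-- The second Reidemeister move. -/
lemma sg_canc (i : ℕ) (s : Bool) (hi : i + 1 < N) (K : QR N) :
    sg (comp (lt N (.sg i s)) (comp (lt N (.sg i !s)) K)) = sg K := by
  let W : Submodule ℝ (comp (lt N (.sg i s)) (comp (lt N (.sg i !s)) K)).V :=
    cl (comp (lt N (.sg i s)) (comp (lt N (.sg i !s)) K)) ⊓
    LinearMap.eqLocus (LinearMap.fst ℝ E E ∘ₗ LinearMap.fst ℝ _ _)
      (LinearMap.snd ℝ E E ∘ₗ LinearMap.fst ℝ _ _ ∘ₗ LinearMap.snd ℝ (E × E) _)
  have hWm : ∀ x y y' z k, ((x, y), ((y', z), k)) ∈ W ↔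
      ((x, y), ((y', z), k)) ∈ cl (comp (lt N (.sg i s)) (comp (lt N (.sg i !s)) K)) ∧ x = z :=
    fun _ _ _ _ _ => Iff.rfl
  have hclm : ∀ x y y' z k, ((x, y), ((y', z), k)) ∈
      cl (comp (lt N (.sg i s)) (comp (lt N (.sg i !s)) K)) ↔
      ((x, y), ((y', z), k)) ∈ (comp (lt N (.sg i s)) (comp (lt N (.sg i !s)) K)).C ∧
        K.o k = x := fun _ _ _ _ _ => Iff.rfl
  refine redC _ _ _ _ (fdcl _) (fdcl _) W inf_le_left
    (LinearMap.snd ℝ (E × E) K.V ∘ₗ LinearMap.snd ℝ (E × E) ((E × E) × K.V)) ?_ ?_ ?_ ?_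
  · rintro ⟨⟨x, y⟩, ⟨⟨y', z⟩, k⟩⟩ hv
    rw [hWm, hclm] at hv
    obtain ⟨⟨hv1, hv2⟩, hv3⟩ := hv
    obtain ⟨_, _, h3, h4, h5⟩ := mem2.1 hv1
    refine mem_cl.2 ⟨h3, ?_⟩
    change K.o k = K.i k
    rw [hv2, hv3]
    exact h5
  · rintro k ⟨hk1, hk2⟩
    have hk2' : K.o k = K.i k := hk2
    have s1 := K.hi k hk1
    refine ⟨((K.i k, K.i k), ((K.i k, K.i k), k)), (hWm _ _ _ _ _).2 ⟨(hclm _ _ _ _ _).2
      ⟨mem2.2 ⟨⟨s1, s1, rel_sg.2 (fun _ _ _ => rfl)⟩, ⟨s1, s1, rel_sg.2 (fun _ _ _ => rfl)⟩,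
        hk1, rfl, rfl⟩, hk2'⟩, rfl⟩, rfl⟩
  · rintro ⟨⟨x, y⟩, ⟨⟨y', z⟩, k⟩⟩ hv
    rw [hWm, hclm] at hv
    obtain ⟨⟨hv1, hv2⟩, hv3⟩ := hv
    obtain ⟨_, _, h3, h4, h5⟩ := mem2.1 hv1
    dsimp only at h4
    subst h4 hv3
    refine Eq.trans ?_ (q2 (.sg i s) (.sg i !s) K x y y x k).symm
    change K.q k = _
    cases s
    · simp only [BL.ix, qv, Bool.not_false, if_true, if_false, Bool.false_eq_true]
      ring
    · simp only [BL.ix, qv, Bool.not_true, if_true, if_false, Bool.false_eq_true]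
      ring
  · rintro ⟨⟨x, y⟩, ⟨⟨y', z⟩, k⟩⟩ hv hl
    refine (hWm _ _ _ _ _).2 ⟨hv, ?_⟩
    obtain ⟨hv1, hv2⟩ := (hclm _ _ _ _ _).1 hv
    obtain ⟨⟨_, _, h1⟩, ⟨_, _, h2⟩, h3, h4, h5⟩ := mem2.1 hv1
    dsimp only at h1 h2 h3 h4 h5
    rw [rel_sg] at h1 h2
    have key : ∀ j, j = i ∨ j = i + 1 →
        (comp (lt N (.sg i s)) (comp (lt N (.sg i !s)) K)).q
          ((x, y + ev j), ((y + ev j, z), k)) =
        (comp (lt N (.sg i s)) (comp (lt N (.sg i !s)) K)).q ((x, y), ((y, z), k)) := by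
      intro j hj
      have hjN : j < N := by omega
      have hmem : ((0 : E), ev j) ∈ (lt N (.sg i s)).C := ⟨Submodule.zero_mem _, ev_supp hjN,
        rel_sg.2 (fun l hl hl' => ev_ne (by omega))⟩
      have hmem' : (ev j, (0 : E)) ∈ (lt N (.sg i !s)).C := ⟨ev_supp hjN, Submodule.zero_mem _,
        rel_sg.2 (fun l hl hl' => (ev_ne (by omega)).symm)⟩
      have hl1 := hl ((0, ev j), ((ev j, 0), 0)) ((hWm _ _ _ _ _).2 ⟨(hclm _ _ _ _ _).2
        ⟨mem2.2 ⟨hmem, hmem', Submodule.zero_mem _, rfl, by rw [map_zero]⟩, by rw [map_zero]⟩,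
          rfl⟩) rfl
      have e0 : ((x, y), ((y', z), k)) + ((0, ev j), ((ev j, 0), 0)) =
        (((x, y + ev j), ((y' + ev j, z), k)) : (E × E) × ((E × E) × K.V)) := by
        simp
      rw [polar] at hl1
      have e1 : (comp (lt N (.sg i s)) (comp (lt N (.sg i !s)) K)).q
          ((0, ev j), ((ev j, 0), 0)) = 0 := by
        rw [q2]
        cases s
        · simp only [BL.ix, qv, Bool.not_false, if_true, if_false, Bool.false_eq_true, map_zero,
            Pi.zero_apply]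
          ring
        · simp only [BL.ix, qv, Bool.not_true, if_true, if_false, Bool.false_eq_true, map_zero,
            Pi.zero_apply]
          ring
      rw [e1] at hl1
      have e2 : (comp (lt N (.sg i s)) (comp (lt N (.sg i !s)) K)).q
        (((x, y), ((y', z), k)) + ((0, ev j), ((ev j, 0), 0))) =
        (comp (lt N (.sg i s)) (comp (lt N (.sg i !s)) K)).q
          ((x, y + ev j), ((y' + ev j, z), k)) := congrArg _ e0
      rw [e2, ← h4] at hl1
      linarith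
    have k1 := key i (Or.inl rfl)
    have k2 := key (i + 1) (Or.inr rfl)
    rw [q2, q2] at k1 k2
    simp only [BL.ix, Pi.add_apply, ev_same, ev_ne (show i + 1 ≠ i by omega),
      ev_ne (show i ≠ i + 1 by omega)] at k1 k2
    have f0 : x i = z i := by
      cases s
      · simp only [qv, Bool.not_false, if_true, if_false, Bool.false_eq_true] at k1
        linarith
      · simp only [qv, Bool.not_true, if_true, if_false, Bool.false_eq_true] at k1
        linarith
    have f1 : x (i + 1) = z (i + 1) := by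
      cases s
      · simp only [qv, Bool.not_false, if_true, if_false, Bool.false_eq_true] at k2
        linarith
      · simp only [qv, Bool.not_true, if_true, if_false, Bool.false_eq_true] at k2
        linarith
    funext j
    by_cases h : j = i
    · rw [h, f0]
    · by_cases h' : j = i + 1
      · rw [h', f1]
      · rw [h2 j h h', ← h4, h1 j h h']

end SG
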