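import Pool.Agent.H70.SG.F

/-!
# Stabilization and exchange moves
-/

namespace SG

open QuadraticMap Module ZM

variable {N : ℕ}

/-- The relation `K` does not involve the position `s`. -/
def Free (s : ℕ) (K : QR N) : Prop := ∃ κ ∈ K.C, K.i κ = ev s ∧ K.o κ = ev s ∧
  (∀ (v : K.V) (c : ℝ), K.q (v + c • κ) = K.q v) ∧ ∀ v ∈ K.C, K.o v s = K.i v s

/-- The two positions of a letter, in one of the two orders. -/
def pr (i r s : ℕ) : Prop := (r = i ∧ s = i + 1) ∨ (r = i + 1 ∧ s = i)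

lemma pr_ne {i r s : ℕ} (h : pr i r s) : r ≠ s := by
  rcases h with ⟨h1, h2⟩ | ⟨h1, h2⟩ <;> omega

lemma qv_pr {i r s : ℕ} (h : pr i r s) (t : Bool) (x y : E) :
    qv (.sg i t) (x i) (x (i + 1)) (y i) (y (i + 1)) =
      -(if t then 1 else -1) * ((y r - x r) ^ 2 + (y s - x s) ^ 2) + 2 * (y r * y s - x r * x s) := by
  rcases h with ⟨rfl, rfl⟩ | ⟨rfl, rfl⟩
  · rfl
  · simp only [qv]
    ring

lemma rel_sg_pr {i r s : ℕ} (h : pr i r s) {t : Bool} {x y : E} :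
    rel (.sg i t) x y ↔ ∀ j, j ≠ r → j ≠ s → y j = x j := by
  rw [rel_sg]
  rcases h with ⟨rfl, rfl⟩ | ⟨rfl, rfl⟩
  · rfl
  · exact ⟨fun h j h1 h2 => h j h2 h1, fun h j h1 h2 => h j h2 h1⟩

lemma rel_ta_pr {i r s : ℕ} (h : pr i r s) {x y : E} :
    rel (.ta i) x y ↔ (∀ j, j ≠ r → j ≠ s → y j = x j) ∧ y r = x s ∧ y s = x r := by
  rcases h with ⟨rfl, rfl⟩ | ⟨rfl, rfl⟩
  · rfl
  · constructor
    · rintro ⟨h1, h2, h3⟩
      exact ⟨fun j k1 k2 => h1 j k2 k1, h3, h2⟩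
    · rintro ⟨h1, h2, h3⟩
      exact ⟨fun j k1 k2 => h1 j k2 k1, h3, h2⟩

lemma free_QW (s : ℕ) (hs : s < N) (w : List BL) (hw : ∀ a ∈ w, s ≠ a.ix ∧ s ≠ a.ix + 1) :
    Free s (QW N w) := by
  induction w with
  | nil =>
    refine ⟨ev s, ev_supp hs, rfl, rfl, fun v c => rfl, fun v _ => rfl⟩
  | cons a w ih =>
    obtain ⟨κ, h1, h2, h3, h4, h5⟩ := ih (fun b hb => hw b (List.mem_cons_of_mem _ hb))
    obtain ⟨g1, g2⟩ := hw a List.mem_cons_self
    refine ⟨((ev s, ev s), κ), ?_, rfl, h3, ?_, ?_⟩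
    · refine mem1.2 ⟨⟨ev_supp hs, ev_supp hs, fun _ _ _ => rfl, ?_⟩, h1, h2.symm⟩
      cases a with
      | sg i t => trivial
      | ta i =>
        change s ≠ i at g1
        change s ≠ i + 1 at g2
        refine ⟨?_, ?_⟩
        · change ev s i = ev s (i + 1)
          rw [ev_ne g1.symm, ev_ne g2.symm]
        · change ev s (i + 1) = ev s i
          rw [ev_ne g1.symm, ev_ne g2.symm]
    · rintro ⟨⟨x, y⟩, k⟩ c
      refine Eq.trans (q1 a (QW N w) ((x + c • ev s, y + c • ev s), k + c • κ)) (Eq.trans ?_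
        (q1 a (QW N w) ((x, y), k)).symm)
      change qv a ((x + c • ev s) a.ix) ((x + c • ev s) (a.ix + 1)) ((y + c • ev s) a.ix)
        ((y + c • ev s) (a.ix + 1)) + (QW N w).q (k + c • κ) =
        qv a (x a.ix) (x (a.ix + 1)) (y a.ix) (y (a.ix + 1)) + (QW N w).q k
      rw [h4]
      simp only [Pi.add_apply, Pi.smul_apply, ev_ne g1.symm, ev_ne g2.symm, smul_zero, add_zero]
    · rintro ⟨⟨x, y⟩, k⟩ hv
      obtain ⟨⟨_, _, h6, _⟩, h7, h8⟩ := mem1.1 hv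
      have h9 := h5 k h7
      dsimp only at h8
      rw [← h8] at h9
      exact h9.trans (h6 s g1 g2)

/-- Closed elements with vanishing coordinate `s`. -/
def cl0 (s : ℕ) (K : QR N) : Submodule ℝ K.V :=
  cl K ⊓ LinearMap.ker (LinearMap.proj s ∘ₗ K.i)

lemma mem_cl0 {s : ℕ} {K : QR N} {k : K.V} :
    k ∈ cl0 s K ↔ (k ∈ K.C ∧ K.o k = K.i k) ∧ K.i k s = 0 := Iff.rfl

lemma fdcl0 (s : ℕ) (K : QR N) : FiniteDimensional ℝ (cl0 s K) :=
  haveI := fdcl K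
  Submodule.finiteDimensional_of_le (inf_le_left : cl0 s K ≤ cl K)

lemma free_plain {s : ℕ} {K : QR N} (h : Free s K) :
    sg K = sgn (K.q.restrict (cl0 s K)) := by
  obtain ⟨κ, h1, h2, h3, h4, h5⟩ := h
  refine redI _ _ _ _ (fdcl _) (fdcl0 _ _)
    (LinearMap.id - (LinearMap.proj s ∘ₗ K.i).smulRight κ) ?_ ?_ ?_
  · rintro k ⟨hk1, hk2⟩
    have hk2' : K.o k = K.i k := hk2
    change k - (K.i k s) • κ ∈ _
    refine mem_cl0.2 ⟨⟨Submodule.sub_mem _ hk1 (Submodule.smul_mem _ _ h1), ?_⟩, ?_⟩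
    · rw [map_sub, map_sub, map_smul, map_smul, h2, h3, hk2']
    · rw [map_sub, map_smul, h2]
      simp [ev_same]
  · intro k hk
    obtain ⟨hk1, hk2⟩ := mem_cl0.1 hk
    refine ⟨k, hk1, ?_⟩
    change k - (K.i k s) • κ = k
    rw [hk2, zero_smul, sub_zero]
  · intro k _
    change K.q (k - (K.i k s) • κ) = K.q k
    rw [sub_eq_add_neg, ← neg_smul, h4]

/-- The projection used in the stabilization. -/
noncomputable def stf (s : ℕ) (K : QR N) (κ : K.V) : (E × E) × K.V →ₗ[ℝ] K.V :=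
  (LinearMap.id - (LinearMap.proj s ∘ₗ K.i).smulRight κ) ∘ₗ LinearMap.snd ℝ (E × E) K.V

lemma stf_apply (s : ℕ) (K : QR N) (κ : K.V) (v : (E × E) × K.V) :
    stf s K κ v = v.2 - (K.i v.2 s) • κ := rfl

lemma free_sg {i r s : ℕ} (hp : pr i r s) (t : Bool) (hs : s < N) {K : QR N} (h : Free s K) :
    sg (comp (lt N (.sg i t)) K) = sgn (K.q.restrict (cl0 s K)) := by
  obtain ⟨κ, h1, h2, h3, h4, h5⟩ := h
  have hne := pr_ne hp
  let W : Submodule ℝ (comp (lt N (.sg i t)) K).V := cl (comp (lt N (.sg i t)) K) ⊓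
    LinearMap.eqLocus (LinearMap.proj r ∘ₗ LinearMap.fst ℝ E E ∘ₗ LinearMap.fst ℝ _ _)
      (LinearMap.proj r ∘ₗ LinearMap.snd ℝ E E ∘ₗ LinearMap.fst ℝ _ _)
  have hWm : ∀ x y k, ((x, y), k) ∈ W ↔
      (((x, y), k) ∈ (comp (lt N (.sg i t)) K).C ∧ K.o k = x) ∧ x r = y r :=
    fun _ _ _ => Iff.rfl
  refine redC _ _ _ _ (fdcl _) (fdcl0 _ _) W inf_le_left (stf s K κ) ?_ ?_ ?_ ?_
  · rintro ⟨⟨x, y⟩, k⟩ hv
    obtain ⟨⟨hv1, hv2⟩, hv3⟩ := (hWm _ _ _).1 hv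
    obtain ⟨⟨_, _, g1⟩, g2, g3⟩ := mem1.1 hv1
    dsimp only at g1 g2 g3
    rw [rel_sg_pr hp] at g1
    have hxy : x = y := by
      funext j
      by_cases hj : j = r
      · rw [hj, hv3]
      · by_cases hj' : j = s
        · rw [hj', ← hv2, h5 k g2, g3]
        · exact (g1 j hj hj').symm
    rw [stf_apply]
    change k - (K.i k s) • κ ∈ _
    refine mem_cl0.2 ⟨⟨Submodule.sub_mem _ g2 (Submodule.smul_mem _ _ h1), ?_⟩, ?_⟩
    · rw [map_sub, map_sub, map_smul, map_smul, h2, h3, hv2, ← g3, hxy]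
    · rw [map_sub, map_smul, h2]
      simp [ev_same]
  · intro k hk
    obtain ⟨⟨hk1, hk2⟩, hk3⟩ := mem_cl0.1 hk
    have hsp := K.hi k hk1
    refine ⟨((K.i k, K.i k), k), (hWm _ _ _).2 ⟨⟨mem1.2 ⟨⟨hsp, hsp, rel_sg.2 (fun _ _ _ => rfl)⟩,
      hk1, rfl⟩, hk2⟩, rfl⟩, ?_⟩
    rw [stf_apply]
    change k - (K.i k s) • κ = k
    rw [hk3, zero_smul, sub_zero]
  · rintro ⟨⟨x, y⟩, k⟩ hv
    obtain ⟨⟨hv1, hv2⟩, hv3⟩ := (hWm _ _ _).1 hv
    obtain ⟨⟨_, _, g1⟩, g2, g3⟩ := mem1.1 hv1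
    dsimp only at g1 g2 g3
    rw [rel_sg_pr hp] at g1
    have hxy : x s = y s := by rw [← hv2, h5 k g2, g3]
    rw [stf_apply]
    refine Eq.trans ?_ (q1 (.sg i t) K ((x, y), k)).symm
    change K.q (k - (K.i k s) • κ) = qv (.sg i t) (x i) (x (i + 1)) (y i) (y (i + 1)) + K.q k
    rw [sub_eq_add_neg, ← neg_smul, h4, qv_pr hp, hv3, hxy]
    ring
  · rintro ⟨⟨x, y⟩, k⟩ hv hl
    have hv2 : K.o k = x := hv.2
    obtain ⟨⟨_, _, g1⟩, g2, g3⟩ := mem1.1 hv.1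
    dsimp only at g1 g2 g3
    refine (hWm _ _ _).2 ⟨⟨hv.1, hv2⟩, ?_⟩
    have hl1 := hl ((ev s, ev s), κ) ((hWm _ _ _).2 ⟨⟨mem1.2 ⟨⟨ev_supp hs, ev_supp hs,
      rel_sg.2 (fun _ _ _ => rfl)⟩, h1, h2.symm⟩, h3⟩, rfl⟩) (by
        rw [stf_apply]
        change κ - (K.i κ s) • κ = 0
        rw [h2, ev_same, one_smul, sub_self])
    have e1 : (comp (lt N (.sg i t)) K).q (((x, y), k) + ((ev s, ev s), κ)) =
        qv (.sg i t) ((x + ev s) i) ((x + ev s) (i + 1)) ((y + ev s) i) ((y + ev s) (i + 1)) +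
          K.q (k + κ) := q1 (.sg i t) K ((x + ev s, y + ev s), k + κ)
    have e2 : (comp (lt N (.sg i t)) K).q ((x, y), k) =
        qv (.sg i t) (x i) (x (i + 1)) (y i) (y (i + 1)) + K.q k := q1 (.sg i t) K ((x, y), k)
    have e3 : (comp (lt N (.sg i t)) K).q ((ev s, ev s), κ) =
        qv (.sg i t) (ev s i) (ev s (i + 1)) (ev s i) (ev s (i + 1)) + K.q κ :=
      q1 (.sg i t) K ((ev s, ev s), κ)
    have e4 : K.q (k + κ) = K.q k := by
      have := h4 k 1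
      rwa [one_smul] at this
    have e5 : K.q κ = 0 := by
      have := h4 0 1
      rwa [one_smul, zero_add, map_zero] at this
    rw [polar, e1, e2, e3, e4, e5, qv_pr hp, qv_pr hp, qv_pr hp] at hl1
    simp only [Pi.add_apply, ev_same, ev_ne hne] at hl1
    linarith

lemma free_ta {i r s : ℕ} (hp : pr i r s) (hs : s < N) {K : QR N} (h : Free s K) :
    sg (comp (lt N (.ta i)) K) = sgn (K.q.restrict (cl0 s K)) := by
  obtain ⟨κ, h1, h2, h3, h4, h5⟩ := h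
  have hne := pr_ne hp
  refine redI _ _ _ _ (fdcl _) (fdcl0 _ _) (stf s K κ) ?_ ?_ ?_
  · rintro ⟨⟨x, y⟩, k⟩ hv
    have hv2 : K.o k = x := hv.2
    obtain ⟨⟨_, _, g1⟩, g2, g3⟩ := mem1.1 hv.1
    dsimp only at g1 g2 g3
    rw [rel_ta_pr hp] at g1
    obtain ⟨g4, g5, g6⟩ := g1
    have hs1 : x s = y s := by rw [← hv2, h5 k g2, g3]
    have hxy : x = y := by
      funext j
      by_cases hj : j = r
      · rw [hj, g5, hs1, g6]
      · by_cases hj' : j = s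
        · rw [hj', hs1]
        · exact (g4 j hj hj').symm
    rw [stf_apply]
    change k - (K.i k s) • κ ∈ _
    refine mem_cl0.2 ⟨⟨Submodule.sub_mem _ g2 (Submodule.smul_mem _ _ h1), ?_⟩, ?_⟩
    · rw [map_sub, map_sub, map_smul, map_smul, h2, h3, hv2, ← g3, hxy]
    · rw [map_sub, map_smul, h2]
      simp [ev_same]
  · intro k hk
    obtain ⟨⟨hk1, hk2⟩, hk3⟩ := mem_cl0.1 hk
    obtain ⟨c, hc⟩ : ∃ c, c = K.i k r := ⟨_, rfl⟩
    have hsp : K.i k + c • ev s ∈ supp N :=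
      Submodule.add_mem _ (K.hi k hk1) (Submodule.smul_mem _ _ (ev_supp hs))
    refine ⟨((K.i k + c • ev s, K.i k + c • ev s), k + c • κ), ⟨mem1.2 ⟨⟨hsp, hsp,
      (rel_ta_pr hp).2 ⟨fun _ _ _ => rfl, ?_, ?_⟩⟩, Submodule.add_mem _ hk1
      (Submodule.smul_mem _ _ h1), ?_⟩, ?_⟩, ?_⟩
    · change K.i k r + c * ev s r = K.i k s + c * ev s s
      rw [ev_ne hne, ev_same, hk3, hc]
      ring
    · change K.i k s + c * ev s s = K.i k r + c * ev s r
      rw [ev_ne hne, ev_same, hk3, hc]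
      ring
    · change K.i k + c • ev s = K.i (k + c • κ)
      rw [map_add, map_smul, h2]
    · change K.o (k + c • κ) = K.i k + c • ev s
      rw [map_add, map_smul, h3, hk2]
    · rw [stf_apply]
      change (k + c • κ) - (K.i (k + c • κ) s) • κ = k
      rw [map_add, map_smul, h2]
      have : (K.i k + c • ev s) s = c := by
        change K.i k s + c * ev s s = c
        rw [ev_same, hk3]
        ring
      rw [this]
      abel
  · rintro ⟨⟨x, y⟩, k⟩ _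
    rw [stf_apply]
    refine Eq.trans ?_ (q1 (.ta i) K ((x, y), k)).symm
    change K.q (k - (K.i k s) • κ) = 0 + K.q k
    rw [sub_eq_add_neg, ← neg_smul, h4, zero_add]

/-- Positive and negative stabilization. -/
theorem sg_stab (m : ℕ) (w : List BL) (hw : BOk (m + 1) w) (hN : m + 1 < N) (t : Bool) :
    sg (QW N (w ++ [.sg m t])) = sg (QW N w) := by
  have hf : Free (m + 1) (QW N w) := free_QW (m + 1) hN w (fun a ha => by
    have := hw a ha
    omega)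
  rw [sg_conj]
  change sg (comp (lt N (.sg m t)) (QW N w)) = _
  rw [free_sg (Or.inl ⟨rfl, rfl⟩ : pr m m (m + 1)) t hN hf, free_plain hf]

/-- Virtual stabilization. -/
theorem sg_stabv (m : ℕ) (w : List BL) (hw : BOk (m + 1) w) (hN : m + 1 < N) :
    sg (QW N (w ++ [.ta m])) = sg (QW N w) := by
  have hf : Free (m + 1) (QW N w) := free_QW (m + 1) hN w (fun a ha => by
    have := hw a ha
    omega)
  rw [sg_conj]
  change sg (comp (lt N (.ta m)) (QW N w)) = _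
  rw [free_ta (Or.inl ⟨rfl, rfl⟩ : pr m m (m + 1)) hN hf, free_plain hf]

end SG
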