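import Pool.Agent.H70.SG.G

/-!
# Exchange moves and invariance
-/

namespace SG

open QuadraticMap Module ZM

variable {N : ℕ}

/-- The relation with four factors. -/
@[reducible] noncomputable def four (a b : BL) (K L : QR N) : QR N :=
  comp (lt N a) (comp K (comp (lt N b) L))

lemma mem4 {a b : BL} {K L : QR N} {x y x' y' : E} {k : K.V} {l : L.V} :
    ((x, y), (k, ((x', y'), l))) ∈ cl (four a b K L) ↔
      (x ∈ supp N ∧ y ∈ supp N ∧ rel a x y) ∧ k ∈ K.C ∧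
      (x' ∈ supp N ∧ y' ∈ supp N ∧ rel b x' y') ∧ l ∈ L.C ∧
      y = K.i k ∧ K.o k = x' ∧ y' = L.i l ∧ L.o l = x := by
  constructor
  · rintro ⟨h1, h2⟩
    obtain ⟨g1, g2, g3⟩ := mem1.1 h1
    obtain ⟨g4, g5, g6⟩ := mem_comp.1 g2
    obtain ⟨g7, g8, g9⟩ := mem1.1 g5
    exact ⟨g1, g4, g7, g8, g3, g6, g9, h2⟩
  · rintro ⟨g1, g4, g7, g8, g3, g6, g9, h2⟩
    exact ⟨mem1.2 ⟨g1, mem_comp.2 ⟨g4, mem1.2 ⟨g7, g8, g9⟩, g6⟩, g3⟩, h2⟩

lemma q4 (a b : BL) (K L : QR N) (x y x' y' : E) (k : K.V) (l : L.V) :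
    (four a b K L).q ((x, y), (k, ((x', y'), l))) =
      qv a (x a.ix) (x (a.ix + 1)) (y a.ix) (y (a.ix + 1)) + (K.q k +
      (qv b (x' b.ix) (x' (b.ix + 1)) (y' b.ix) (y' (b.ix + 1)) + L.q l)) := by
  refine Eq.trans (q1 a (comp K (comp (lt N b) L)) ((x, y), (k, ((x', y'), l)))) ?_
  refine congrArg (qv a (x a.ix) (x (a.ix + 1)) (y a.ix) (y (a.ix + 1)) + ·) ?_
  exact congrArg (K.q k + ·) (q1 b L ((x', y'), l))

/-- The change of labels in the exchange move. -/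
noncomputable def exf (r s : ℕ) (K L : QR N) (κ : K.V) (lam : L.V) :
    (E × E) × (K.V × ((E × E) × L.V)) →ₗ[ℝ] (E × E) × (K.V × ((E × E) × L.V)) :=
  let X : (E × E) × (K.V × ((E × E) × L.V)) →ₗ[ℝ] E :=
    LinearMap.fst ℝ E E ∘ₗ LinearMap.fst ℝ _ _
  let Y : (E × E) × (K.V × ((E × E) × L.V)) →ₗ[ℝ] E :=
    LinearMap.snd ℝ E E ∘ₗ LinearMap.fst ℝ _ _
  let k : (E × E) × (K.V × ((E × E) × L.V)) →ₗ[ℝ] K.V :=
    LinearMap.fst ℝ K.V _ ∘ₗ LinearMap.snd ℝ (E × E) _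
  let X' : (E × E) × (K.V × ((E × E) × L.V)) →ₗ[ℝ] E :=
    LinearMap.fst ℝ E E ∘ₗ LinearMap.fst ℝ _ _ ∘ₗ LinearMap.snd ℝ K.V _ ∘ₗ
      LinearMap.snd ℝ (E × E) _
  let Y' : (E × E) × (K.V × ((E × E) × L.V)) →ₗ[ℝ] E :=
    LinearMap.snd ℝ E E ∘ₗ LinearMap.fst ℝ _ _ ∘ₗ LinearMap.snd ℝ K.V _ ∘ₗ
      LinearMap.snd ℝ (E × E) _
  let l : (E × E) × (K.V × ((E × E) × L.V)) →ₗ[ℝ] L.V :=
    LinearMap.snd ℝ (E × E) _ ∘ₗ LinearMap.snd ℝ K.V _ ∘ₗ LinearMap.snd ℝ (E × E) _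
  ((X + (LinearMap.proj r ∘ₗ Y - LinearMap.proj s ∘ₗ X).smulRight (ev s)).prod
    (Y + (LinearMap.proj r ∘ₗ X - LinearMap.proj s ∘ₗ Y).smulRight (ev s))).prod
  ((k + (LinearMap.proj r ∘ₗ X - LinearMap.proj s ∘ₗ Y).smulRight κ).prod
    (((X' + (LinearMap.proj r ∘ₗ X - LinearMap.proj s ∘ₗ X').smulRight (ev s)).prod
    (Y' + (LinearMap.proj r ∘ₗ Y - LinearMap.proj s ∘ₗ Y').smulRight (ev s))).prod
    (l + (LinearMap.proj r ∘ₗ Y - LinearMap.proj s ∘ₗ Y').smulRight lam)))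

lemma exf_apply (r s : ℕ) (K L : QR N) (κ : K.V) (lam : L.V) (x y x' y' : E) (k : K.V)
    (l : L.V) : exf r s K L κ lam ((x, y), (k, ((x', y'), l))) =
    ((x + (y r - x s) • ev s, y + (x r - y s) • ev s), (k + (x r - y s) • κ,
      ((x' + (x r - x' s) • ev s, y' + (y r - y' s) • ev s), l + (y r - y' s) • lam))) := rfl

lemma exchange {i r s : ℕ} (hp : pr i r s) (hs : s < N) {K L : QR N} (hK : Free s K)
    (hL : Free s L) :
    sg (four (.sg i false) (.sg i true) K L) = sg (four (.ta i) (.ta i) K L) := by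
  obtain ⟨κ, a1, a2, a3, a4, a5⟩ := hK
  obtain ⟨lam, b1, b2, b3, b4, b5⟩ := hL
  have hne := pr_ne hp
  let W : Submodule ℝ (four (.sg i false) (.sg i true) K L).V :=
    cl (four (.sg i false) (.sg i true) K L) ⊓
    (LinearMap.eqLocus
      (LinearMap.proj r ∘ₗ LinearMap.snd ℝ E E ∘ₗ LinearMap.fst ℝ _ _ ∘ₗ
        LinearMap.snd ℝ K.V _ ∘ₗ LinearMap.snd ℝ (E × E) _)
      (LinearMap.proj r ∘ₗ LinearMap.fst ℝ E E ∘ₗ LinearMap.fst ℝ _ _) ⊓
    LinearMap.eqLocus (LinearMap.proj r ∘ₗ LinearMap.snd ℝ E E ∘ₗ LinearMap.fst ℝ _ _)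
      (LinearMap.proj r ∘ₗ LinearMap.fst ℝ E E ∘ₗ LinearMap.fst ℝ _ _ ∘ₗ
        LinearMap.snd ℝ K.V _ ∘ₗ LinearMap.snd ℝ (E × E) _))
  have hWm : ∀ x y k x' y' l, ((x, y), (k, ((x', y'), l))) ∈ W ↔
      ((x, y), (k, ((x', y'), l))) ∈ cl (four (.sg i false) (.sg i true) K L) ∧
        y' r = x r ∧ y r = x' r := fun _ _ _ _ _ _ => Iff.rfl
  refine redC _ _ _ _ (fdcl _) (fdcl _) W inf_le_left (exf r s K L κ lam) ?_ ?_ ?_ ?_
  · rintro ⟨⟨x, y⟩, ⟨k, ⟨⟨x', y'⟩, l⟩⟩⟩ hv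
    obtain ⟨hv1, hv2, hv3⟩ := (hWm _ _ _ _ _ _).1 hv
    obtain ⟨⟨s1, s2, h1⟩, h2, ⟨s3, s4, h3⟩, h4, h5, h6, h7, h8⟩ := mem4.1 hv1
    rw [rel_sg_pr hp] at h1 h3
    rw [exf_apply]
    have f1 : x' s = y s := by rw [← h6, a5 k h2, h5]
    have f2 : x s = y' s := by rw [← h8, b5 l h4, h7]
    have hes := ev_supp hs
    refine mem4.2 ⟨⟨Submodule.add_mem _ s1 (Submodule.smul_mem _ _ hes),
      Submodule.add_mem _ s2 (Submodule.smul_mem _ _ hes), (rel_ta_pr hp).2 ⟨?_, ?_, ?_⟩⟩,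
      Submodule.add_mem _ h2 (Submodule.smul_mem _ _ a1),
      ⟨Submodule.add_mem _ s3 (Submodule.smul_mem _ _ hes),
      Submodule.add_mem _ s4 (Submodule.smul_mem _ _ hes), (rel_ta_pr hp).2 ⟨?_, ?_, ?_⟩⟩,
      Submodule.add_mem _ h4 (Submodule.smul_mem _ _ b1), ?_, ?_, ?_, ?_⟩
    · intro j hj hj'
      change y j + (x r - y s) * ev s j = x j + (y r - x s) * ev s j
      rw [ev_ne hj', h1 j hj hj']
      ring
    · change y r + (x r - y s) * ev s r = x s + (y r - x s) * ev s s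
      rw [ev_ne hne, ev_same]
      ring
    · change y s + (x r - y s) * ev s s = x r + (y r - x s) * ev s r
      rw [ev_ne hne, ev_same]
      ring
    · intro j hj hj'
      change y' j + (y r - y' s) * ev s j = x' j + (x r - x' s) * ev s j
      rw [ev_ne hj', h3 j hj hj']
      ring
    · change y' r + (y r - y' s) * ev s r = x' s + (x r - x' s) * ev s s
      rw [ev_ne hne, ev_same, hv2]
      ring
    · change y' s + (y r - y' s) * ev s s = x' r + (x r - x' s) * ev s r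
      rw [ev_ne hne, ev_same, hv3]
      ring
    · rw [map_add, map_smul, a2, h5]
    · rw [map_add, map_smul, a3, h6, f1]
    · rw [map_add, map_smul, b2, h7]
    · rw [map_add, map_smul, b3, h8, f2]
  · rintro ⟨⟨x, y⟩, ⟨k, ⟨⟨x', y'⟩, l⟩⟩⟩ hv
    obtain ⟨⟨s1, s2, h1⟩, h2, ⟨s3, s4, h3⟩, h4, h5, h6, h7, h8⟩ := mem4.1 hv
    rw [rel_ta_pr hp] at h1 h3
    obtain ⟨g1, g2, g3⟩ := h1
    obtain ⟨g4, g5, g6⟩ := h3
    have f1 : x' s = y s := by rw [← h6, a5 k h2, h5]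
    have f2 : x s = y' s := by rw [← h8, b5 l h4, h7]
    refine ⟨((x, y), (k, ((x', y'), l))), (hWm _ _ _ _ _ _).2 ⟨mem4.2 ⟨⟨s1, s2,
      (rel_sg_pr hp).2 g1⟩, h2, ⟨s3, s4, (rel_sg_pr hp).2 g4⟩, h4, h5, h6, h7, h8⟩,
      by rw [g5, f1, g3], by rw [g2, f2, g6]⟩, ?_⟩
    rw [exf_apply]
    have c1 : y r - x s = 0 := by rw [g2, sub_self]
    have c2 : x r - y s = 0 := by rw [g3, sub_self]
    have c3 : x r - x' s = 0 := by rw [f1, g3, sub_self]
    have c4 : y r - y' s = 0 := by rw [g2, f2, sub_self]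
    rw [c1, c2, c3, c4]
    simp only [zero_smul, add_zero]
  · rintro ⟨⟨x, y⟩, ⟨k, ⟨⟨x', y'⟩, l⟩⟩⟩ hv
    obtain ⟨hv1, hv2, hv3⟩ := (hWm _ _ _ _ _ _).1 hv
    obtain ⟨⟨s1, s2, h1⟩, h2, ⟨s3, s4, h3⟩, h4, h5, h6, h7, h8⟩ := mem4.1 hv1
    have f1 : x' s = y s := by rw [← h6, a5 k h2, h5]
    have f2 : x s = y' s := by rw [← h8, b5 l h4, h7]
    rw [exf_apply]
    refine Eq.trans (q4 (.ta i) (.ta i) K L _ _ _ _ _ _) (Eq.trans ?_
      (q4 (.sg i false) (.sg i true) K L x y x' y' k l).symm)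
    change 0 + (K.q (k + (x r - y s) • κ) + (0 + L.q (l + (y r - y' s) • lam))) =
      qv (.sg i false) (x i) (x (i + 1)) (y i) (y (i + 1)) + (K.q k +
      (qv (.sg i true) (x' i) (x' (i + 1)) (y' i) (y' (i + 1)) + L.q l))
    rw [a4, b4, qv_pr hp, qv_pr hp, hv2, ← hv3, f1, ← f2]
    simp only [if_true, if_false, Bool.false_eq_true]
    ring
  · rintro ⟨⟨x, y⟩, ⟨k, ⟨⟨x', y'⟩, l⟩⟩⟩ hv hl
    have hv1 : ((x, y), (k, ((x', y'), l))) ∈ cl (four (.sg i false) (.sg i true) K L) := hv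
    obtain ⟨⟨s1, s2, h1⟩, h2, ⟨s3, s4, h3⟩, h4, h5, h6, h7, h8⟩ := mem4.1 hv1
    have f1 : x' s = y s := by rw [← h6, a5 k h2, h5]
    have f2 : x s = y' s := by rw [← h8, b5 l h4, h7]
    have hes := ev_supp hs
    have z0 : (0 : E) ∈ supp N := Submodule.zero_mem _
    have offe : ∀ j, j ≠ r → j ≠ s → ev s j = (0 : E) j := fun j _ h => ev_ne h
    have offe' : ∀ j, j ≠ r → j ≠ s → (0 : E) j = ev s j := fun j _ h => (ev_ne h).symm
    have q0 : (four (.sg i false) (.sg i true) K L).q ((x, y), (k, ((x', y'), l))) =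
      qv (.sg i false) (x i) (x (i + 1)) (y i) (y (i + 1)) + (K.q k +
      (qv (.sg i true) (x' i) (x' (i + 1)) (y' i) (y' (i + 1)) + L.q l)) :=
      q4 (.sg i false) (.sg i true) K L x y x' y' k l
    have a40 : K.q κ = 0 := by
      have := a4 0 1
      rwa [one_smul, zero_add, map_zero] at this
    have b40 : L.q lam = 0 := by
      have := b4 0 1
      rwa [one_smul, zero_add, map_zero] at this
    have a41 : K.q (k + κ) = K.q k := by
      have := a4 k 1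
      rwa [one_smul] at this
    have b41 : L.q (l + lam) = L.q l := by
      have := b4 l 1
      rwa [one_smul] at this
    refine (hWm _ _ _ _ _ _).2 ⟨hv1, ?_, ?_⟩
    · have hl2 := hl ((ev s, 0), (0, ((0, ev s), lam))) ((hWm _ _ _ _ _ _).2 ⟨mem4.2
        ⟨⟨hes, z0, (rel_sg_pr hp).2 offe'⟩, Submodule.zero_mem _,
          ⟨z0, hes, (rel_sg_pr hp).2 offe⟩, b1, by rw [map_zero], by rw [map_zero], b2.symm, b3⟩,
          by rw [ev_ne hne], by rfl⟩) (by
          rw [exf_apply]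
          simp only [Pi.zero_apply, ev_same, ev_ne hne, sub_self, zero_sub, zero_smul, neg_smul,
            one_smul, add_zero, add_neg_cancel]
          rfl)
      have e1 : (four (.sg i false) (.sg i true) K L).q (((x, y), (k, ((x', y'), l))) +
          ((ev s, 0), (0, ((0, ev s), lam)))) =
          qv (.sg i false) ((x + ev s) i) ((x + ev s) (i + 1)) ((y + 0) i) ((y + 0) (i + 1)) +
          (K.q (k + 0) + (qv (.sg i true) ((x' + 0) i) ((x' + 0) (i + 1)) ((y' + ev s) i)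
            ((y' + ev s) (i + 1)) + L.q (l + lam))) :=
        q4 (.sg i false) (.sg i true) K L (x + ev s) (y + 0) (x' + 0) (y' + ev s) (k + 0) (l + lam)
      have e2 : (four (.sg i false) (.sg i true) K L).q ((ev s, 0), (0, ((0, ev s), lam))) =
          qv (.sg i false) (ev s i) (ev s (i + 1)) ((0 : E) i) ((0 : E) (i + 1)) +
          (K.q 0 + (qv (.sg i true) ((0 : E) i) ((0 : E) (i + 1)) (ev s i)
            (ev s (i + 1)) + L.q lam)) :=
        q4 (.sg i false) (.sg i true) K L (ev s) 0 0 (ev s) 0 lam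
      rw [polar, e1, e2, q0, b40, b41, qv_pr hp, qv_pr hp, qv_pr hp, qv_pr hp, qv_pr hp,
        qv_pr hp] at hl2
      simp only [Pi.add_apply, Pi.zero_apply, add_zero, map_zero, ev_same, ev_ne hne, if_true,
        if_false, Bool.false_eq_true] at hl2
      linarith
    · have hl2 := hl ((0, ev s), (κ, ((ev s, 0), 0))) ((hWm _ _ _ _ _ _).2 ⟨mem4.2
        ⟨⟨z0, hes, (rel_sg_pr hp).2 offe⟩, a1,
          ⟨hes, z0, (rel_sg_pr hp).2 offe'⟩, Submodule.zero_mem _, a2.symm, a3,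
          by rw [map_zero], by rw [map_zero]⟩,
          rfl, rfl⟩) (by
          rw [exf_apply]
          simp only [Pi.zero_apply, ev_same, ev_ne hne, sub_self, zero_sub, zero_smul, neg_smul,
            one_smul, add_zero, add_neg_cancel]
          rfl)
      have e1 : (four (.sg i false) (.sg i true) K L).q (((x, y), (k, ((x', y'), l))) +
          ((0, ev s), (κ, ((ev s, 0), 0)))) =
          qv (.sg i false) ((x + 0) i) ((x + 0) (i + 1)) ((y + ev s) i) ((y + ev s) (i + 1)) +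
          (K.q (k + κ) + (qv (.sg i true) ((x' + ev s) i) ((x' + ev s) (i + 1)) ((y' + 0) i)
            ((y' + 0) (i + 1)) + L.q (l + 0))) :=
        q4 (.sg i false) (.sg i true) K L (x + 0) (y + ev s) (x' + ev s) (y' + 0) (k + κ) (l + 0)
      have e2 : (four (.sg i false) (.sg i true) K L).q ((0, ev s), (κ, ((ev s, 0), 0))) =
          qv (.sg i false) ((0 : E) i) ((0 : E) (i + 1)) (ev s i) (ev s (i + 1)) +
          (K.q κ + (qv (.sg i true) (ev s i) (ev s (i + 1)) ((0 : E) i)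
            ((0 : E) (i + 1)) + L.q 0)) :=
        q4 (.sg i false) (.sg i true) K L 0 (ev s) (ev s) 0 κ 0
      rw [polar, e1, e2, q0, a40, a41, qv_pr hp, qv_pr hp, qv_pr hp, qv_pr hp, qv_pr hp,
        qv_pr hp] at hl2
      simp only [Pi.add_apply, Pi.zero_apply, add_zero, map_zero, ev_same, ev_ne hne, if_true,
        if_false, Bool.false_eq_true] at hl2
      linarith

lemma sg_four (a b : BL) (u v : List BL) :
    sg (QW N (u ++ [a] ++ v ++ [b])) = sg (four a b (QW N v) (QW N u)) := by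
  rw [List.append_assoc, List.append_assoc, sg_conj, List.append_assoc, List.append_assoc]
  change sg (comp (lt N a) (QW N (v ++ ([b] ++ u)))) = _
  exact (Ep.sg (Ep.compL (lt N a) (Ep.app v ([b] ++ u)))).symm

/-- The right exchange move. -/
theorem sg_exR (m : ℕ) (u v : List BL) (hu : BOk (m + 1) u) (hv : BOk (m + 1) v)
    (hN : m + 1 < N) :
    sg (QW N (u ++ [.sg m false] ++ v ++ [.sg m true])) =
      sg (QW N (u ++ [.ta m] ++ v ++ [.ta m])) := by
  rw [sg_four, sg_four]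
  refine exchange (Or.inl ⟨rfl, rfl⟩ : pr m m (m + 1)) hN (free_QW _ hN _ ?_) (free_QW _ hN _ ?_)
  · intro a ha
    have := hv a ha
    omega
  · intro a ha
    have := hu a ha
    omega

lemma shift_ix (a : BL) : a.shift.ix = a.ix + 1 := by
  cases a <;> rfl

/-- The left exchange move. -/
theorem sg_exL (u v : List BL) (hN : 1 < N) :
    sg (QW N (u.map BL.shift ++ [.sg 0 false] ++ v.map BL.shift ++ [.sg 0 true])) =
      sg (QW N (u.map BL.shift ++ [.ta 0] ++ v.map BL.shift ++ [.ta 0])) := by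
  rw [sg_four, sg_four]
  have hf : ∀ w : List BL, ∀ a ∈ w.map BL.shift, 0 ≠ a.ix ∧ 0 ≠ a.ix + 1 := by
    intro w a ha
    obtain ⟨b, _, rfl⟩ := List.mem_map.1 ha
    rw [shift_ix]
    omega
  exact exchange (Or.inr ⟨rfl, rfl⟩ : pr 0 1 0) (by omega) (free_QW _ (by omega) _ (hf v))
    (free_QW _ (by omega) _ (hf u))

/-- Local relations. -/
theorem sg_Loc {x y : List BL} (h : Loc x y) (hx : BOk N x) (hy : BOk N y) (K : List BL) :
    sg (QW N (x ++ K)) = sg (QW N (y ++ K)) := by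
  cases h with
  | far a b h => exact (ep_far a b h (QW N K)).sg
  | canc i s =>
    exact sg_canc i s (hx (.sg i s) (by simp)) (QW N K)
  | tt i => exact (ep_tt i (hx (.ta i) (by simp)) (QW N K)).sg
  | r3 i => exact (ep_r3 i (hx (.sg (i + 1) true) (by simp)) (QW N K)).sg
  | v3 i => exact (ep_v3 i (hx (.ta (i + 1)) (by simp)) (QW N K)).sg
  | mix i s => exact (ep_mix i s (hx (.ta (i + 1)) (by simp)) (QW N K)).sg

lemma BOk_sub {m : ℕ} {u x v : List BL} (h : BOk m (u ++ x ++ v)) : BOk m x :=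
  fun a ha => h a (by simp [ha])

/-- Invariance under all moves. -/
theorem sg_Move {D D' : ℕ × List BL} (h : Move D D') (h1 : BOk D.1 D.2) (h2 : BOk D'.1 D'.2)
    (hN : D.1 ≤ N) (hN' : D'.1 ≤ N) : sg (QW N D.2) = sg (QW N D'.2) := by
  have mono : ∀ {m : ℕ} {w : List BL}, m ≤ N → BOk m w → BOk N w :=
    fun hm hw a ha => lt_of_lt_of_le (hw a ha) hm
  cases h with
  | loc m u v x y h =>
    exact sg_loc u x y v (fun K => sg_Loc h (BOk_sub (mono hN h1)) (BOk_sub (mono hN' h2)) K)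
  | conj m u v => exact sg_conj u v
  | stab m w hw s => exact (sg_stab m w hw (by simp only at hN'; omega) s).symm
  | stabv m w hw => exact (sg_stabv m w hw (by simp only at hN'; omega)).symm
  | exR m u v hu hv => exact sg_exR m u v hu hv (by simp only at hN; omega)
  | exL m u v hu hv => exact sg_exL u v (by simp only at hN; omega)
  | virt m u v i s =>
    refine sg_loc u [.sg i s] [.ta i, .sg i s, .ta i] v (fun K => ?_)
    exact (ep_virt i s (BOk_sub (mono hN h1) (.sg i s) (by simp)) (QW N K)).sg.symm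

/-- The signature of the closure is invariant under all moves. -/
theorem sg_ZEquiv {D D' : ℕ × List BL} (h : ZEquiv D D') :
    ∃ M, ∀ N, M ≤ N → sg (QW N D.2) = sg (QW N D'.2) := by
  induction h with
  | refl => exact ⟨0, fun _ _ => rfl⟩
  | @tail D' D'' _ h ih =>
    obtain ⟨M, hM⟩ := ih
    obtain ⟨_, _, h3, h4, h5⟩ := h
    refine ⟨max M (max D'.1 D''.1), fun N hN => ?_⟩
    rw [hM N (by omega)]
    rcases h5 with h5 | h5
    · exact sg_Move h5 h3 h4 (by omega) (by omega)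
    · exact (sg_Move h5 h4 h3 (by omega) (by omega)).symm

end SG
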