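import Pool.Agent.H70.SG.H

/-!
# The Seifert form of a closed classical braid, column sums
-/

namespace SG

open QuadraticMap Module ZM

/-- The sign of a crossing. -/
def eps : BL → ℝ
  | .sg _ s => if s then 1 else -1
  | .ta _ => 0

/-- The first homology of the Seifert surface of the closed braid `w` (a disc for each strand, a
half twisted band for each letter): real flows on the bands such that for every column `i` the sum
of the flows over all bands joining the discs `i` and `i + 1` vanishes. -/
def Cyc (w : List BL) : Submodule ℝ (Fin w.length → ℝ) where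
  carrier := {z | ∀ i : ℕ, (∑ t, if (w.get t).ix = i then z t else 0) = 0}
  zero_mem' := fun i => by simp
  add_mem' := by
    intro a b ha hb i
    have h : ∀ t : Fin w.length, (if (w.get t).ix = i then (a + b) t else 0) =
        (if (w.get t).ix = i then a t else 0) + (if (w.get t).ix = i then b t else 0) := by
      intro t
      split_ifs <;> simp
    rw [Finset.sum_congr rfl fun t _ => h t, Finset.sum_add_distrib, ha i, hb i, add_zero]
  smul_mem' := by
    intro c a ha i
    have h : ∀ t : Fin w.length, (if (w.get t).ix = i then (c • a) t else 0) =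
        c * (if (w.get t).ix = i then a t else 0) := by
      intro t
      split_ifs <;> simp
    rw [Finset.sum_congr rfl fun t _ => h t, ← Finset.mul_sum, ha i, mul_zero]

/-- The symmetrized Seifert form `z (V + V^T) z` of the Seifert surface of the closed braid `w`:
`- ∑ ε_t z_t ^ 2 + 2 ∑ z_s z_t`, where the second sum is over all pairs `s < t` of letters such that
`t` is in the column following the column of `s`. -/
noncomputable def seif (w : List BL) : QuadraticForm ℝ (Fin w.length → ℝ) :=
  (∑ t, (-(eps (w.get t))) • linMulLin (LinearMap.proj t) (LinearMap.proj t)) +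
  ∑ s, ∑ t, (if s < t ∧ (w.get t).ix = (w.get s).ix + 1 then (2 : ℝ) else 0) •
    linMulLin (LinearMap.proj s) (LinearMap.proj t)

/-- The signature of the closure of the classical braid word `w`. -/
noncomputable def sig (w : List BL) : ℤ := sgn ((seif w).restrict (Cyc w))

/-! ### Recursive descriptions -/

/-- Sum over the letters in the column `i - c`. -/
def cs : (w : List BL) → (Fin w.length → ℝ) → ℕ → ℕ → ℝ
  | [], _, _, _ => 0
  | a :: w, z, c, i => (if a.ix + c = i then z 0 else 0) + cs w (fun t => z t.succ) c i

/-- Weighted squares. -/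
def sq : (w : List BL) → (Fin w.length → ℝ) → ℝ
  | [], _ => 0
  | a :: w, z => eps a * z 0 ^ 2 + sq w (fun t => z t.succ)

/-- Cross terms. -/
def cr : (w : List BL) → (Fin w.length → ℝ) → ℝ
  | [], _ => 0
  | a :: w, z => z 0 * cs w (fun t => z t.succ) 0 (a.ix + 1) + cr w (fun t => z t.succ)

/-- Cross terms. -/
def cr' : (w : List BL) → (Fin w.length → ℝ) → ℝ
  | [], _ => 0
  | a :: w, z => z 0 * cs w (fun t => z t.succ) 1 a.ix + cr' w (fun t => z t.succ)

/-- Cross terms. -/
def mx : (w : List BL) → (Fin w.length → ℝ) → (Fin w.length → ℝ) → ℝ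
  | [], _, _ => 0
  | a :: w, z, z' => z 0 * cs w (fun t => z' t.succ) 2 a.ix +
      z' 0 * cs w (fun t => z t.succ) 0 (a.ix + 2) +
      mx w (fun t => z t.succ) (fun t => z' t.succ)

lemma cs_eq (w : List BL) (z : Fin w.length → ℝ) (c i : ℕ) :
    cs w z c i = ∑ t, if (w.get t).ix + c = i then z t else 0 := by
  induction w with
  | nil => simp [cs]
  | cons a w ih =>
    rw [cs, ih]
    exact (Fin.sum_univ_succ
      (fun t : Fin (w.length + 1) => if ((a :: w).get t).ix + c = i then z t else 0)).symm

lemma mem_Cyc {w : List BL} {z : Fin w.length → ℝ} : z ∈ Cyc w ↔ ∀ i, cs w z 0 i = 0 := by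
  constructor
  · intro h i
    rw [cs_eq]
    exact h i
  · intro h i
    have := h i
    rw [cs_eq] at this
    exact this

lemma cs_succ (w : List BL) (z : Fin w.length → ℝ) (c i : ℕ) :
    cs w z (c + 1) (i + 1) = cs w z c i := by
  rw [cs_eq, cs_eq]
  refine Finset.sum_congr rfl fun t _ => ?_
  have : ((w.get t).ix + (c + 1) = i + 1) ↔ ((w.get t).ix + c = i) := by omega
  simp only [this]

lemma cs_zero (w : List BL) (z : Fin w.length → ℝ) (c : ℕ) : cs w z (c + 1) 0 = 0 := by
  rw [cs_eq]
  refine Finset.sum_eq_zero fun t _ => ?_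
  rw [if_neg (by omega)]

lemma cs_big {N : ℕ} (w : List BL) (hw : BOk N w) (z : Fin w.length → ℝ) (c j : ℕ) (hc : c ≤ 1)
    (hj : N ≤ j) : cs w z c j = 0 := by
  rw [cs_eq]
  refine Finset.sum_eq_zero fun t _ => ?_
  have := hw (w.get t) (List.get_mem w t)
  rw [if_neg (by omega)]

lemma seif_apply (w : List BL) (z : Fin w.length → ℝ) : seif w z = -sq w z + 2 * cr w z := by
  have h1 : seif w z = (∑ t, -(eps (w.get t)) * (z t * z t)) +
      ∑ s, ∑ t, (if s < t ∧ (w.get t).ix = (w.get s).ix + 1 then (2 : ℝ) else 0) *
        (z s * z t) := by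
    simp only [seif, add_apply, sum_apply, smul_apply, linMulLin_apply, LinearMap.proj_apply,
      smul_eq_mul]
  rw [h1]
  clear h1
  induction w with
  | nil => simp [sq, cr]
  | cons a w ih =>
    have e1 : (∑ t : Fin (w.length + 1), -(eps ((a :: w).get t)) * (z t * z t)) =
        -(eps a) * (z 0 * z 0) + ∑ t : Fin w.length, -(eps (w.get t)) *
          (z t.succ * z t.succ) :=
      Fin.sum_univ_succ (fun t : Fin (w.length + 1) => -(eps ((a :: w).get t)) * (z t * z t))
    have e2 : (∑ s : Fin (w.length + 1), ∑ t : Fin (w.length + 1),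
        (if s < t ∧ ((a :: w).get t).ix = ((a :: w).get s).ix + 1 then (2 : ℝ) else 0) *
        (z s * z t)) = 2 * (z 0 * cs w (fun t => z t.succ) 0 (a.ix + 1)) +
        ∑ s : Fin w.length, ∑ t : Fin w.length,
          (if s < t ∧ (w.get t).ix = (w.get s).ix + 1 then (2 : ℝ) else 0) *
          (z s.succ * z t.succ) := by
      rw [Fin.sum_univ_succ]
      congr 1
      · rw [Fin.sum_univ_succ]
        rw [if_neg (by simp), zero_mul, zero_add, cs_eq, Finset.mul_sum, Finset.mul_sum]
        refine Finset.sum_congr rfl fun t _ => ?_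
        have : ((0 : Fin (w.length + 1)) < t.succ ∧
            ((a :: w).get t.succ).ix = ((a :: w).get 0).ix + 1) ↔
            ((w.get t).ix + 0 = a.ix + 1) := by
          constructor
          · rintro ⟨_, h⟩
            exact h
          · intro h
            exact ⟨Fin.succ_pos t, h⟩
        simp only [this]
        split_ifs <;> ring
      · refine Finset.sum_congr rfl fun s _ => ?_
        rw [Fin.sum_univ_succ]
        rw [if_neg (by simp), zero_mul, zero_add]
        refine Finset.sum_congr rfl fun t _ => ?_
        have : (s.succ < t.succ ∧ ((a :: w).get t.succ).ix = ((a :: w).get s.succ).ix + 1) ↔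
            (s < t ∧ (w.get t).ix = (w.get s).ix + 1) := by
          rw [Fin.succ_lt_succ_iff]
          rfl
        simp only [this]
    have e3 := ih (fun t => z t.succ)
    change (∑ t : Fin (w.length + 1), -(eps ((a :: w).get t)) * (z t * z t)) +
      (∑ s : Fin (w.length + 1), ∑ t : Fin (w.length + 1),
        (if s < t ∧ ((a :: w).get t).ix = ((a :: w).get s).ix + 1 then (2 : ℝ) else 0) *
        (z s * z t)) = _
    rw [e1, e2, sq, cr]
    linarith

lemma ind_sum (N c : ℕ) (f : ℕ → ℝ) (t : ℝ) (hc : c < N) :
    ∑ j ∈ Finset.range N, f j * (if c = j then t else 0) = f c * t := by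
  rw [Finset.sum_eq_single c]
  · rw [if_pos rfl]
  · intro j _ hj
    rw [if_neg (Ne.symm hj), mul_zero]
  · intro h
    exact absurd (Finset.mem_range.2 hc) h

lemma cs_down (w : List BL) (z : Fin w.length → ℝ) (N a c : ℕ) (ha : a < N) :
    ∑ j ∈ Finset.range N, cs w z 0 j * (if a = j + c then (1 : ℝ) else 0) = cs w z c a := by
  by_cases h : c ≤ a
  · obtain ⟨b, rfl⟩ := Nat.exists_eq_add_of_le h
    have h1 : ∀ j, (c + b = j + c) ↔ (b = j) := fun j => by omega
    simp only [h1]
    rw [ind_sum N b _ 1 (by omega), mul_one]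
    clear h h1 ha
    induction c with
    | zero => rw [zero_add]
    | succ c ih => rw [show c + 1 + b = (c + b) + 1 by omega, cs_succ, ← ih]
  · rw [Finset.sum_eq_zero]
    · rw [cs_eq]
      symm
      refine Finset.sum_eq_zero fun t _ => ?_
      rw [if_neg (by omega)]
    · intro j _
      rw [if_neg (by omega), mul_zero]

lemma cr_add (w : List BL) (N : ℕ) (hw : BOk N w) (z : Fin w.length → ℝ) :
    cr w z + cr' w z = ∑ j ∈ Finset.range N, cs w z 0 j * cs w z 0 (j + 1) := by
  induction w with
  | nil => simp [cr, cr', cs]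
  | cons a w ih =>
    have h := ih (fun b hb => hw b (List.mem_cons_of_mem _ hb)) (fun t => z t.succ)
    have ha : a.ix + 1 < N := hw a List.mem_cons_self
    have e1 : ∀ j ∈ Finset.range N, cs (a :: w) z 0 j * cs (a :: w) z 0 (j + 1) =
        cs w (fun t => z t.succ) 0 j * cs w (fun t => z t.succ) 0 (j + 1) +
        cs w (fun t => z t.succ) 0 (j + 1) * (if a.ix = j then z 0 else 0) +
        z 0 * (cs w (fun t => z t.succ) 0 j * (if a.ix = j + 1 then (1 : ℝ) else 0)) := by
      intro j _
      simp only [cs, add_zero]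
      by_cases h1 : a.ix = j
      · rw [if_pos h1, if_neg (by omega), if_neg (by omega)]
        ring
      · rw [if_neg h1]
        by_cases h2 : a.ix = j + 1
        · rw [if_pos h2, if_pos h2]
          ring
        · rw [if_neg h2, if_neg h2]
          ring
    rw [Finset.sum_congr rfl e1, Finset.sum_add_distrib, Finset.sum_add_distrib, ← h,
      ind_sum N a.ix (fun j => cs w (fun t => z t.succ) 0 (j + 1)) (z 0) (by omega),
      ← Finset.mul_sum, cs_down _ _ _ _ _ (by omega), cr, cr']
    ring

lemma mx_eq (w : List BL) (N : ℕ) (hw : BOk N w) (z z' : Fin w.length → ℝ) :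
    mx w z z' = ∑ j ∈ Finset.range N, cs w z' 0 j * cs w z 0 (j + 2) := by
  induction w with
  | nil => simp [mx, cs]
  | cons a w ih =>
    have h := ih (fun b hb => hw b (List.mem_cons_of_mem _ hb)) (fun t => z t.succ)
      (fun t => z' t.succ)
    have ha : a.ix + 1 < N := hw a List.mem_cons_self
    have e1 : ∀ j ∈ Finset.range N, cs (a :: w) z' 0 j * cs (a :: w) z 0 (j + 2) =
        cs w (fun t => z' t.succ) 0 j * cs w (fun t => z t.succ) 0 (j + 2) +
        cs w (fun t => z t.succ) 0 (j + 2) * (if a.ix = j then z' 0 else 0) +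
        z 0 * (cs w (fun t => z' t.succ) 0 j * (if a.ix = j + 2 then (1 : ℝ) else 0)) := by
      intro j _
      simp only [cs, add_zero]
      by_cases h1 : a.ix = j
      · rw [if_pos h1, if_neg (by omega), if_neg (by omega)]
        ring
      · rw [if_neg h1]
        by_cases h2 : a.ix = j + 2
        · rw [if_pos h2, if_pos h2]
          ring
        · rw [if_neg h2, if_neg h2]
          ring
    rw [Finset.sum_congr rfl e1, Finset.sum_add_distrib, Finset.sum_add_distrib, ← h,
      ind_sum N a.ix (fun j => cs w (fun t => z t.succ) 0 (j + 2)) (z' 0) (by omega),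
      ← Finset.mul_sum, cs_down _ _ _ _ _ (by omega), mx]
    ring

end SG
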