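import Pool.Agent.H70.SG.I

/-!
# Paths of classical words
-/

namespace SG

open QuadraticMap Module ZM

variable {N : ℕ}

/-- Prepending a coordinate. -/
def consL (n : ℕ) : ℝ × (Fin n → ℝ) →ₗ[ℝ] (Fin (n + 1) → ℝ) where
  toFun p := Fin.cons p.1 p.2
  map_add' := by
    intro p q
    funext t
    refine Fin.cases ?_ (fun t => ?_) t
    · simp
    · simp
  map_smul' := by
    intro c p
    funext t
    refine Fin.cases ?_ (fun t => ?_) t
    · simp
    · simp

lemma consL_zero {n : ℕ} (c : ℝ) (f : Fin n → ℝ) : consL n (c, f) 0 = c := rfl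
lemma consL_succ {n : ℕ} (c : ℝ) (f : Fin n → ℝ) (t : Fin n) : consL n (c, f) t.succ = f t := rfl

/-- The change of the label in the position `ix + c` at each letter. -/
noncomputable def Z (c : ℕ) : (w : List BL) → (QW N w).V →ₗ[ℝ] (Fin w.length → ℝ)
  | [] => 0
  | a :: w => consL w.length ∘ₗ
      ((LinearMap.proj (a.ix + c) ∘ₗ (LinearMap.snd ℝ E E - LinearMap.fst ℝ E E) ∘ₗ
        LinearMap.fst ℝ (E × E) (QW N w).V).prod
      (Z c w ∘ₗ LinearMap.snd ℝ (E × E) (QW N w).V))

lemma Z_zero (c : ℕ) (a : BL) (w : List BL) (x y : E) (k : (QW N w).V) :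
    Z (N := N) c (a :: w) ((x, y), k) 0 = y (a.ix + c) - x (a.ix + c) := rfl
lemma Z_succ (c : ℕ) (a : BL) (w : List BL) (x y : E) (k : (QW N w).V) :
    (fun t => Z (N := N) c (a :: w) ((x, y), k) (Fin.succ t)) = Z c w k := rfl

lemma mem_QW {a : BL} {w : List BL} {x y : E} {k : (QW N w).V} :
    ((x, y), k) ∈ (QW N (a :: w)).C ↔ (x ∈ supp N ∧ y ∈ supp N ∧ rel a x y) ∧
      k ∈ (QW N w).C ∧ y = (QW N w).i k := mem1

lemma q_QW (a : BL) (w : List BL) (x y : E) (k : (QW N w).V) :
    (QW N (a :: w)).q ((x, y), k) =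
      qv a (x a.ix) (x (a.ix + 1)) (y a.ix) (y (a.ix + 1)) + (QW N w).q k :=
  q1 a (QW N w) ((x, y), k)

lemma i_QW (a : BL) (w : List BL) (x y : E) (k : (QW N w).V) :
    (QW N (a :: w)).i ((x, y), k) = x := rfl

lemma o_QW (a : BL) (w : List BL) (x y : E) (k : (QW N w).V) :
    (QW N (a :: w)).o ((x, y), k) = (QW N w).o k := rfl

lemma Classical.tail {a : BL} {w : List BL} (h : Classical (a :: w)) : Classical w :=
  fun b hb => h b (List.mem_cons_of_mem _ hb)

/-- The end point of a path. -/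
lemma endpt (w : List BL) (hc : Classical w) (v : (QW N w).V) (hv : v ∈ (QW N w).C) (j : ℕ) :
    (QW N w).o v j = (QW N w).i v j + cs w (Z 0 w v) 0 j + cs w (Z 1 w v) 1 j := by
  induction w with
  | nil =>
    change v j = v j + 0 + 0
    ring
  | cons a w ih =>
    obtain ⟨⟨x, y⟩, k⟩ := v
    obtain ⟨⟨_, _, h1⟩, h2, h3⟩ := mem_QW.1 hv
    have h4 := ih (Classical.tail hc) k h2
    rw [o_QW, i_QW, h4, ← h3, cs, cs, Z_succ, Z_succ, Z_zero, Z_zero, add_zero]
    by_cases h5 : a.ix = j
    · subst h5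
      rw [if_pos rfl, if_neg (by omega)]
      ring
    · rw [if_neg h5]
      by_cases h6 : a.ix + 1 = j
      · subst h6
        rw [if_pos rfl]
        ring
      · rw [if_neg h6, h1.1 j (Ne.symm h5) (Ne.symm h6)]
        ring

/-- The linear form in the labels. -/
noncomputable def AA (N : ℕ) (w : List BL) (u : E) (z z' : Fin w.length → ℝ) : ℝ :=
  ∑ j ∈ Finset.range N, u j * (cs w z 0 (j + 1) + cs w z' 2 j)

/-- The sum of products of neighbours. -/
noncomputable def NN (N : ℕ) (x : E) : ℝ := ∑ j ∈ Finset.range N, x j * x (j + 1)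

/-- The preceding coordinate. -/
noncomputable def pm (x : E) (a : ℕ) : ℝ := if a = 0 then 0 else x (a - 1)

lemma pm_sum (N a : ℕ) (x : E) (t : ℝ) (ha : a < N) :
    ∑ j ∈ Finset.range N, x j * (if a = j + 1 then t else 0) = pm x a * t := by
  rw [pm]
  by_cases h : a = 0
  · rw [if_pos h, zero_mul]
    refine Finset.sum_eq_zero fun j _ => ?_
    rw [if_neg (by omega), mul_zero]
  · rw [if_neg h]
    have h1 : ∀ j, (a = j + 1) ↔ (a - 1 = j) := fun j => by omega
    simp only [h1]
    exact ind_sum N (a - 1) x t (by omega)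

lemma NN_step (a : ℕ) (x y : E) (ha : a + 1 < N) (h : ∀ j, j ≠ a → j ≠ a + 1 → y j = x j) :
    NN N y - NN N x = y a * y (a + 1) - x a * x (a + 1) +
      pm x a * (y a - x a) + x (a + 2) * (y (a + 1) - x (a + 1)) := by
  rw [NN, NN, ← Finset.sum_sub_distrib]
  have e1 : ∀ j ∈ Finset.range N, y j * y (j + 1) - x j * x (j + 1) =
      1 * (if a = j then y a * y (a + 1) - x a * x (a + 1) else 0) +
      x j * (if a = j + 1 then y a - x a else 0) +
      1 * (if a + 1 = j then x (a + 2) * (y (a + 1) - x (a + 1)) else 0) := by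
    intro j _
    by_cases h1 : a = j
    · subst h1
      rw [if_pos rfl, if_neg (by omega), if_neg (by omega)]
      ring
    · rw [if_neg h1]
      by_cases h2 : a = j + 1
      · subst h2
        rw [if_pos rfl, if_neg (by omega), h j (by omega) (by omega)]
        ring
      · rw [if_neg h2]
        by_cases h3 : a + 1 = j
        · subst h3
          rw [if_pos rfl, h (a + 1 + 1) (by omega) (by omega)]
          ring
        · rw [if_neg h3, h j (Ne.symm h1) (Ne.symm h3), h (j + 1) (Ne.symm h2) (by omega)]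
          ring
  rw [Finset.sum_congr rfl e1, Finset.sum_add_distrib, Finset.sum_add_distrib,
    ind_sum N a (fun _ => 1) _ (by omega), ind_sum N (a + 1) (fun _ => 1) _ (by omega),
    pm_sum N a x _ (by omega)]
  ring

lemma AA_cons (a : BL) (w : List BL) (u : E) (hu : u ∈ supp N) (ha : a.ix + 1 < N)
    (z z' : Fin (a :: w).length → ℝ) :
    AA N (a :: w) u z z' = pm u a.ix * z 0 + u (a.ix + 2) * z' 0 +
      AA N w u (fun t => z t.succ) (fun t => z' t.succ) := by
  rw [AA, AA]
  have e1 : ∀ j ∈ Finset.range N, u j * (cs (a :: w) z 0 (j + 1) + cs (a :: w) z' 2 j) =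
      u j * (if a.ix = j + 1 then z 0 else 0) + u j * (if a.ix + 2 = j then z' 0 else 0) +
      u j * (cs w (fun t => z t.succ) 0 (j + 1) + cs w (fun t => z' t.succ) 2 j) := by
    intro j _
    rw [cs, cs, add_zero]
    ring
  rw [Finset.sum_congr rfl e1, Finset.sum_add_distrib, Finset.sum_add_distrib,
    pm_sum N a.ix u _ (by omega)]
  congr 2
  by_cases h : a.ix + 2 < N
  · exact ind_sum N _ u _ h
  · rw [hu (a.ix + 2) (by omega), zero_mul]
    refine Finset.sum_eq_zero fun j hj => ?_
    rw [Finset.mem_range] at hj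
    rw [if_neg (by omega), mul_zero]

lemma AA_two (w : List BL) (x y : E) (a : ℕ) (ha : a + 1 < N)
    (h : ∀ j, j ≠ a → j ≠ a + 1 → y j = x j) (z z' : Fin w.length → ℝ) :
    AA N w y z z' = AA N w x z z' + (y a - x a) * (cs w z 0 (a + 1) + cs w z' 2 a) +
      (y (a + 1) - x (a + 1)) * (cs w z 0 (a + 2) + cs w z' 1 a) := by
  rw [AA, AA]
  have e1 : ∀ j ∈ Finset.range N, y j * (cs w z 0 (j + 1) + cs w z' 2 j) =
      x j * (cs w z 0 (j + 1) + cs w z' 2 j) +
      (cs w z 0 (j + 1) + cs w z' 2 j) * (if a = j then y a - x a else 0) +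
      (cs w z 0 (j + 1) + cs w z' 2 j) * (if a + 1 = j then y (a + 1) - x (a + 1) else 0) := by
    intro j _
    by_cases h1 : a = j
    · subst h1
      rw [if_pos rfl, if_neg (by omega)]
      ring
    · rw [if_neg h1]
      by_cases h2 : a + 1 = j
      · subst h2
        rw [if_pos rfl]
        ring
      · rw [if_neg h2, h j (Ne.symm h1) (Ne.symm h2)]
        ring
  rw [Finset.sum_congr rfl e1, Finset.sum_add_distrib, Finset.sum_add_distrib,
    ind_sum N a (fun j => cs w z 0 (j + 1) + cs w z' 2 j) _ (by omega),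
    ind_sum N (a + 1) (fun j => cs w z 0 (j + 1) + cs w z' 2 j) _ (by omega),
    show (2 : ℕ) = 1 + 1 from rfl, cs_succ]
  ring

/-- The quadratic form of a path. -/
theorem master (w : List BL) (hc : Classical w) (hw : BOk N w) (v : (QW N w).V)
    (hv : v ∈ (QW N w).C) :
    (QW N w).q v = -sq w (Z 0 w v) - sq w (Z 1 w v) +
      2 * (NN N ((QW N w).o v) - NN N ((QW N w).i v) - AA N w ((QW N w).i v) (Z 0 w v) (Z 1 w v)
        - cr w (Z 0 w v) - cr' w (Z 1 w v) - mx w (Z 0 w v) (Z 1 w v)) := by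
  induction w with
  | nil =>
    change (0 : ℝ) = -0 - 0 + 2 * (NN N v - NN N v -
      (∑ j ∈ Finset.range N, v j * (0 + 0)) - 0 - 0 - 0)
    simp
  | cons a w ih =>
    obtain ⟨⟨x, y⟩, k⟩ := v
    obtain ⟨⟨s1, s2, h1⟩, h2, h3⟩ := mem_QW.1 hv
    have h4 := ih (Classical.tail hc) (fun b hb => hw b (List.mem_cons_of_mem _ hb)) k h2
    have ha : a.ix + 1 < N := hw a List.mem_cons_self
    rw [q_QW, o_QW, i_QW, h4, ← h3, AA_cons a w x s1 ha, sq, sq, cr, cr', mx, Z_succ, Z_succ,
      Z_zero, Z_zero, AA_two w x y a.ix ha h1.1]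
    have h5 := NN_step a.ix x y ha h1.1
    obtain ⟨i, s, rfl⟩ := hc a List.mem_cons_self
    have h6 : NN N y = NN N x + (y i * y (i + 1) - x i * x (i + 1) +
      pm x i * (y i - x i) + x (i + 2) * (y (i + 1) - x (i + 1))) := by
      have h7 : NN N y - NN N x = y i * y (i + 1) - x i * x (i + 1) +
        pm x i * (y i - x i) + x (i + 2) * (y (i + 1) - x (i + 1)) := h5
      linarith
    rw [h6]
    simp only [BL.ix, qv, eps, add_zero]
    ring

/-- The constant path. -/
noncomputable def cst : (w : List BL) → E → (QW N w).V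
  | [], x => x
  | _ :: w, x => ((x, x), cst w x)

lemma cst_i (w : List BL) (x : E) : (QW N w).i (cst w x) = x := by
  cases w <;> rfl

lemma cst_o (w : List BL) (x : E) : (QW N w).o (cst w x) = x := by
  induction w with
  | nil => rfl
  | cons a w ih => exact ih

lemma cst_mem (w : List BL) (hc : Classical w) (x : E) (hx : x ∈ supp N) :
    cst w x ∈ (QW N w).C := by
  induction w with
  | nil => exact hx
  | cons a w ih =>
    refine mem_QW.2 ⟨⟨hx, hx, fun _ _ _ => rfl, ?_⟩, ih (Classical.tail hc), (cst_i w x).symm⟩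
    obtain ⟨i, s, rfl⟩ := hc a List.mem_cons_self
    trivial

lemma cst_Z (w : List BL) (c : ℕ) (x : E) : Z (N := N) c w (cst w x) = 0 := by
  induction w with
  | nil => rfl
  | cons a w ih =>
    funext t
    refine Fin.cases ?_ (fun t => ?_) t
    · change x (a.ix + c) - x (a.ix + c) = 0
      ring
    · exact congrFun ih t

lemma cst_q (w : List BL) (hc : Classical w) (j : ℕ) (v : (QW N w).V) :
    (QW N w).q (v + cst w (ev j)) =
      (QW N w).q v + 2 * (cs w (Z 0 w v) 1 j + cs w (Z 1 w v) 0 j) := by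
  induction w with
  | nil =>
    change (0 : ℝ) = 0 + 2 * (0 + 0)
    ring
  | cons a w ih =>
    obtain ⟨⟨x, y⟩, k⟩ := v
    have h1 := ih (Classical.tail hc) k
    obtain ⟨i, s, rfl⟩ := hc a List.mem_cons_self
    change (QW N (.sg i s :: w)).q ((x + ev j, y + ev j), k + cst w (ev j)) = _
    rw [q_QW, h1, q_QW, cs, cs, Z_succ, Z_succ, Z_zero, Z_zero]
    simp only [BL.ix, qv, Pi.add_apply, add_zero]
    by_cases h2 : i = j
    · subst h2
      rw [if_neg (show ¬ (i + 1 = i) by omega), if_pos rfl, ev_same,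
        ev_ne (show i + 1 ≠ i by omega)]
      ring
    · rw [if_neg h2, ev_ne h2]
      by_cases h3 : i + 1 = j
      · subst h3
        rw [if_pos rfl, ev_same]
        ring
      · rw [if_neg h3, ev_ne h3]
        ring

/-- The path with given changes. -/
noncomputable def pth : (w : List BL) → E → (Fin w.length → ℝ) → (Fin w.length → ℝ) → (QW N w).V
  | [], x, _, _ => x
  | a :: w, x, z, z' => ((x, x + z 0 • ev a.ix + z' 0 • ev (a.ix + 1)),
      pth w (x + z 0 • ev a.ix + z' 0 • ev (a.ix + 1)) (fun t => z t.succ) (fun t => z' t.succ))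

lemma pth_i (w : List BL) (x : E) (z z' : Fin w.length → ℝ) :
    (QW N w).i (pth w x z z') = x := by
  cases w <;> rfl

lemma pth_mem (w : List BL) (hc : Classical w) (hw : BOk N w) (x : E) (hx : x ∈ supp N)
    (z z' : Fin w.length → ℝ) : pth w x z z' ∈ (QW N w).C := by
  induction w generalizing x with
  | nil => exact hx
  | cons a w ih =>
    have ha : a.ix + 1 < N := hw a List.mem_cons_self
    have hy : x + z 0 • ev a.ix + z' 0 • ev (a.ix + 1) ∈ supp N :=
      Submodule.add_mem _ (Submodule.add_mem _ hx (Submodule.smul_mem _ _ (ev_supp (by omega))))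
        (Submodule.smul_mem _ _ (ev_supp ha))
    refine mem_QW.2 ⟨⟨hx, hy, ?_, ?_⟩, ih (Classical.tail hc)
      (fun b hb => hw b (List.mem_cons_of_mem _ hb)) _ hy _ _, (pth_i w _ _ _).symm⟩
    · intro j hj hj'
      change x j + z 0 * ev a.ix j + z' 0 * ev (a.ix + 1) j = x j
      rw [ev_ne hj, ev_ne hj']
      ring
    · obtain ⟨i, s, rfl⟩ := hc a List.mem_cons_self
      trivial

lemma pth_Z0 (w : List BL) (x : E) (z z' : Fin w.length → ℝ) :
    Z (N := N) 0 w (pth w x z z') = z := by
  induction w generalizing x with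
  | nil =>
    funext t
    exact t.elim0
  | cons a w ih =>
    funext t
    refine Fin.cases ?_ (fun t => ?_) t
    · change x a.ix + z 0 * ev a.ix a.ix + z' 0 * ev (a.ix + 1) a.ix - x a.ix = z 0
      rw [ev_same, ev_ne (by omega)]
      ring
    · exact congrFun (ih _ (fun t => z t.succ) (fun t => z' t.succ)) t

lemma pth_Z1 (w : List BL) (x : E) (z z' : Fin w.length → ℝ) :
    Z (N := N) 1 w (pth w x z z') = z' := by
  induction w generalizing x with
  | nil =>
    funext t
    exact t.elim0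
  | cons a w ih =>
    funext t
    refine Fin.cases ?_ (fun t => ?_) t
    · change x (a.ix + 1) + z 0 * ev a.ix (a.ix + 1) + z' 0 * ev (a.ix + 1) (a.ix + 1) -
        x (a.ix + 1) = z' 0
      rw [ev_same, ev_ne (show a.ix + 1 ≠ a.ix by omega)]
      ring
    · exact congrFun (ih _ (fun t => z t.succ) (fun t => z' t.succ)) t

/-- Change of signs in the columns with odd index. -/
def tw (w : List BL) : (Fin w.length → ℝ) →ₗ[ℝ] (Fin w.length → ℝ) where
  toFun z := fun t => (-1) ^ (w.get t).ix * z t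
  map_add' := by
    intro a b
    funext t
    simp only [Pi.add_apply]
    ring
  map_smul' := by
    intro c a
    funext t
    simp only [Pi.smul_apply, smul_eq_mul, RingHom.id_apply]
    ring

lemma tw_tw (w : List BL) (z : Fin w.length → ℝ) : tw w (tw w z) = z := by
  funext t
  change (-1) ^ (w.get t).ix * ((-1) ^ (w.get t).ix * z t) = z t
  rw [← mul_assoc, ← mul_pow]
  norm_num

lemma tw_zero (a : BL) (w : List BL) (z : Fin (a :: w).length → ℝ) :
    tw (a :: w) z 0 = (-1) ^ a.ix * z 0 := rfl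
lemma tw_succ (a : BL) (w : List BL) (z : Fin (a :: w).length → ℝ) :
    (fun t => tw (a :: w) z (Fin.succ t)) = tw w (fun t => z t.succ) := rfl

lemma cs_tw (w : List BL) (z : Fin w.length → ℝ) (i : ℕ) :
    cs w (tw w z) 0 i = (-1) ^ i * cs w z 0 i := by
  induction w with
  | nil => simp [cs]
  | cons a w ih =>
    rw [cs, cs, tw_succ, ih, tw_zero, add_zero]
    by_cases h : a.ix = i
    · rw [if_pos h, if_pos h, h]
      ring
    · rw [if_neg h, if_neg h]
      ring

lemma sq_tw (w : List BL) (z : Fin w.length → ℝ) : sq w (tw w z) = sq w z := by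
  induction w with
  | nil => rfl
  | cons a w ih =>
    rw [sq, sq, tw_succ, ih, tw_zero, mul_pow, ← pow_mul, mul_comm a.ix 2, pow_mul]
    norm_num

lemma cr_tw (w : List BL) (z : Fin w.length → ℝ) : cr w (tw w z) = -cr w z := by
  induction w with
  | nil => simp [cr]
  | cons a w ih =>
    rw [cr, cr, tw_succ, ih, tw_zero, cs_tw, pow_succ]
    have h : ((-1 : ℝ) ^ a.ix) * ((-1 : ℝ) ^ a.ix) = 1 := by
      rw [← mul_pow]
      norm_num
    linear_combination (-(z 0) * cs w (fun t => z t.succ) 0 (a.ix + 1)) * h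

lemma tw_Cyc {w : List BL} {z : Fin w.length → ℝ} (hz : z ∈ Cyc w) : tw w z ∈ Cyc w := by
  rw [mem_Cyc] at hz ⊢
  intro i
  rw [cs_tw, hz i, mul_zero]

end SG
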