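import Pool.Agent.H70.SG.J

/-!
# The signature of classical links is invariant under crossing virtualization
-/

namespace SG

open QuadraticMap Module ZM

variable {N : ℕ}

lemma sgn_congr {V V' : Type*} [AddCommGroup V] [Module ℝ V] [AddCommGroup V'] [Module ℝ V']
    (Q : QuadraticForm ℝ V) (Q' : QuadraticForm ℝ V') (h : Equivalent Q Q') :
    sgn Q = sgn Q' := by
  rw [sgn, sgn, h.sigPos_eq, h.sigNeg_eq]

lemma sgn_prodC {n : ℕ} (Q : QuadraticForm ℝ (Fin n → ℝ)) (C : Submodule ℝ (Fin n → ℝ)) :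
    sgn ((QuadraticMap.prod Q Q).restrict (C.prod C)) = 2 * sgn (Q.restrict C) := by
  have h : Equivalent ((QuadraticMap.prod Q Q).restrict (C.prod C))
      (QuadraticMap.prod (Q.restrict C) (Q.restrict C)) :=
    ⟨{ prodE C C with
       map_app' := fun _ => rfl }⟩
  rw [sgn_congr _ _ h, sgn_prod, two_mul]

/-- For a classical word the signature is twice the signature of the Seifert form. -/
theorem sg_classical (w : List BL) (hc : Classical w) (hw : BOk N w) :
    sg (QW N w) = 2 * sig w := by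
  rw [sig, ← sgn_prodC]
  obtain ⟨f, hf⟩ : ∃ f : (QW N w).V →ₗ[ℝ] (Fin w.length → ℝ) × (Fin w.length → ℝ),
    ∀ v, f v = (tw w (Z 0 w v), Z 1 w v) := ⟨(tw w ∘ₗ Z 0 w).prod (Z 1 w), fun _ => rfl⟩
  have hW : ∀ v, v ∈ cl (QW N w) ⊓ ((Cyc w).prod (Cyc w)).comap f ↔
      v ∈ cl (QW N w) ∧ (∀ i, cs w (Z 0 w v) 0 i = 0) ∧ ∀ i, cs w (Z 1 w v) 0 i = 0 := by
    intro v
    rw [Submodule.mem_inf, Submodule.mem_comap, hf, Submodule.mem_prod]
    refine and_congr_right fun _ => and_congr ?_ mem_Cyc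
    constructor
    · intro h
      have h' := tw_Cyc h
      dsimp only at h'
      rw [tw_tw] at h'
      exact mem_Cyc.1 h'
    · intro h
      exact tw_Cyc (mem_Cyc.2 h)
  have h10 : ∀ z : Fin w.length → ℝ, (∀ i, cs w z 0 i = 0) → ∀ i, cs w z 1 i = 0 := by
    intro z hz i
    cases i with
    | zero => exact cs_zero w z 0
    | succ i => exact (cs_succ w z 0 i).trans (hz i)
  have h20 : ∀ z : Fin w.length → ℝ, (∀ i, cs w z 0 i = 0) → ∀ i, cs w z 2 i = 0 := by
    intro z hz i
    cases i with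
    | zero => exact cs_zero w z 1
    | succ i => exact (cs_succ w z 1 i).trans (h10 z hz i)
  refine redC _ _ _ _ (fdcl _) inferInstance (cl (QW N w) ⊓ ((Cyc w).prod (Cyc w)).comap f)
    inf_le_left f (fun v hv => hv.2) ?_ ?_ ?_
  · rintro ⟨z, z'⟩ ⟨h1, h2⟩
    have h1' : tw w z ∈ Cyc w := tw_Cyc h1
    have h2' : z' ∈ Cyc w := h2
    have hm : pth w 0 (tw w z) z' ∈ (QW N w).C := pth_mem w hc hw 0 (Submodule.zero_mem _) _ _
    refine ⟨pth w 0 (tw w z) z', (hW _).2 ⟨⟨hm, ?_⟩, ?_, ?_⟩, ?_⟩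
    · change (QW N w).o _ = (QW N w).i _
      funext j
      rw [endpt w hc _ hm j, pth_Z0, pth_Z1, mem_Cyc.1 h1' j, h10 _ (mem_Cyc.1 h2') j]
      ring
    · rw [pth_Z0]
      exact mem_Cyc.1 h1'
    · rw [pth_Z1]
      exact mem_Cyc.1 h2'
    · rw [hf, pth_Z0, pth_Z1, tw_tw]
  · intro v hv
    obtain ⟨⟨h1, h2⟩, h3, h4⟩ := (hW v).1 hv
    have h2' : (QW N w).o v = (QW N w).i v := h2
    rw [hf, master w hc hw v h1, h2']
    change seif w (tw w (Z 0 w v)) + seif w (Z 1 w v) = _
    rw [seif_apply, seif_apply, sq_tw, cr_tw]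
    have e1 : AA N w ((QW N w).i v) (Z 0 w v) (Z 1 w v) = 0 := by
      rw [AA]
      refine Finset.sum_eq_zero fun j _ => ?_
      rw [h3, h20 _ h4]
      ring
    have e2 : mx w (Z 0 w v) (Z 1 w v) = 0 := by
      rw [mx_eq w N hw]
      refine Finset.sum_eq_zero fun j _ => ?_
      rw [h4, zero_mul]
    have e3 : cr w (Z 1 w v) + cr' w (Z 1 w v) = 0 := by
      rw [cr_add w N hw]
      refine Finset.sum_eq_zero fun j _ => ?_
      rw [h4, zero_mul]
    rw [e1, e2]
    linarith
  · intro v hv hl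
    have hv2 : (QW N w).o v = (QW N w).i v := hv.2
    have hE1 : ∀ j, cs w (Z 0 w v) 1 j + cs w (Z 1 w v) 0 j = 0 := by
      intro j
      by_cases hj : j < N
      · have hl1 := hl (cst w (ev j)) ((hW _).2 ⟨⟨cst_mem w hc _ (ev_supp hj), by
          change (QW N w).o _ = (QW N w).i _
          rw [cst_o, cst_i]⟩, by
          rw [cst_Z]
          exact mem_Cyc.1 (Submodule.zero_mem _), by
          rw [cst_Z]
          exact mem_Cyc.1 (Submodule.zero_mem _)⟩) (by
            rw [hf, cst_Z, cst_Z, map_zero]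
            rfl)
        have e0 : (QW N w).q (cst w (ev j)) = 0 := by
          have h := cst_q w hc j (0 : (QW N w).V)
          rw [zero_add, map_zero, map_zero, map_zero] at h
          rw [h]
          have z1 : cs w (0 : Fin w.length → ℝ) 1 j = 0 :=
            h10 0 (mem_Cyc.1 (Submodule.zero_mem _)) j
          have z2 : cs w (0 : Fin w.length → ℝ) 0 j = 0 :=
            mem_Cyc.1 (Submodule.zero_mem _) j
          rw [z1, z2]
          ring
        rw [polar, cst_q w hc j v, e0] at hl1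
        linarith
      · rw [cs_big w hw _ 1 j le_rfl (not_lt.1 hj), cs_big w hw _ 0 j (by omega) (not_lt.1 hj),
          add_zero]
    have hE2 : ∀ j, cs w (Z 0 w v) 0 j + cs w (Z 1 w v) 1 j = 0 := by
      intro j
      have h := endpt w hc v hv.1 j
      rw [hv2] at h
      linarith
    have hall : ∀ j, cs w (Z 0 w v) 0 j = 0 ∧ cs w (Z 1 w v) 0 j = 0 := by
      intro j
      induction j with
      | zero =>
        have h1 := hE1 0
        have h2 := hE2 0
        rw [cs_zero, zero_add] at h1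
        rw [cs_zero, add_zero] at h2
        exact ⟨h2, h1⟩
      | succ j ih =>
        have h1 := hE1 (j + 1)
        have h2 := hE2 (j + 1)
        rw [cs_succ, ih.1, zero_add] at h1
        rw [cs_succ, ih.2, add_zero] at h2
        exact ⟨h2, h1⟩
    exact (hW v).2 ⟨hv, fun i => (hall i).1, fun i => (hall i).2⟩

/-- The signature of classical links is invariant under generalized Reidemeister moves and
crossing virtualization. -/
theorem signature_ZEquiv (m m' : ℕ) (w w' : List BL) (hw : BOk m w) (hw' : BOk m' w')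
    (hc : Classical w) (hc' : Classical w') (h : ZEquiv (m, w) (m', w')) : sig w = sig w' := by
  obtain ⟨M, hM⟩ := sg_ZEquiv h
  obtain ⟨K, hK⟩ : ∃ K, K = max M (max m m') := ⟨_, rfl⟩
  have h1 := hM K (by omega)
  have e1 : BOk K w := fun a ha => lt_of_lt_of_le (hw a ha) (by omega)
  have e2 : BOk K w' := fun a ha => lt_of_lt_of_le (hw' a ha) (by omega)
  dsimp only at h1
  rw [sg_classical w hc e1, sg_classical w' hc' e2] at h1
  omega

end SG
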